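import Pool.Agent.Helper32_ABCT.EStmts

/-!
# Separating the first variable (MP_a17fcb_ag, part E, modules EPAIR and EDEG)
-/

open MvPolynomial

namespace ABCT.H20

section Psi

variable {R : Type*} [CommRing R]

/-- separate the variable `0` -/
noncomputable def Psi : MvPolynomial ℕ R →ₐ[R] Polynomial (MvPolynomial ℕ R) :=
  aeval (fun k => Nat.casesOn k Polynomial.X (fun j => Polynomial.C (X j)))

/-- the inverse of `Psi` -/
noncomputable def Tht : Polynomial (MvPolynomial ℕ R) →+* MvPolynomial ℕ R :=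
  Polynomial.eval₂RingHom (rename Nat.succ : MvPolynomial ℕ R →ₐ[R] MvPolynomial ℕ R).toRingHom
    (X 0)

theorem Psi_X0 : Psi (X 0 : MvPolynomial ℕ R) = Polynomial.X := by
  rw [Psi, aeval_X]
  rfl

theorem Psi_Xs (j : ℕ) : Psi (X (j + 1) : MvPolynomial ℕ R) = Polynomial.C (X j) := by
  simp only [Psi, aeval_X]

theorem Psi_C (a : R) : Psi (C a : MvPolynomial ℕ R) = Polynomial.C (C a) := by
  rw [Psi, aeval_C]; rfl

theorem Tht_X : Tht (Polynomial.X : Polynomial (MvPolynomial ℕ R)) = X 0 := by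
  rw [Tht, Polynomial.coe_eval₂RingHom, Polynomial.eval₂_X]

theorem Tht_C (P : MvPolynomial ℕ R) : Tht (Polynomial.C P) = rename Nat.succ P := by
  rw [Tht, Polynomial.coe_eval₂RingHom, Polynomial.eval₂_C]; rfl

theorem Tht_Psi (H : MvPolynomial ℕ R) : Tht (Psi H) = H := by
  have : (Tht.comp (Psi : MvPolynomial ℕ R →ₐ[R] Polynomial (MvPolynomial ℕ R)).toRingHom) =
      RingHom.id (MvPolynomial ℕ R) := by
    apply MvPolynomial.ringHom_ext
    · intro a
      show Tht (Psi (C a)) = C a
      rw [Psi_C, Tht_C, rename_C]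
    · intro k
      show Tht (Psi (X k)) = X k
      cases k with
      | zero => rw [Psi_X0, Tht_X]
      | succ j => rw [Psi_Xs, Tht_C, rename_X]
  exact congrArg (fun f => f H) this

theorem Psi_ne_zero {H : MvPolynomial ℕ R} (h : H ≠ 0) : Psi H ≠ 0 := by
  intro h'
  apply h
  rw [← Tht_Psi H, h', map_zero]

theorem Tht_eq_sum (Q : Polynomial (MvPolynomial ℕ R)) (D : ℕ) (hD : Q.natDegree < D) :
    Tht Q = ∑ e ∈ Finset.range D, rename Nat.succ (Q.coeff e) * X 0 ^ e := by
  rw [Tht, Polynomial.coe_eval₂RingHom, Polynomial.eval₂_eq_sum_range' _ hD]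
  rfl

/-- the exponent vector with value `e` at `0` -/
noncomputable def cons (e : ℕ) (μ : ℕ →₀ ℕ) : ℕ →₀ ℕ :=
  Finsupp.single 0 e + μ.mapDomain Nat.succ

theorem cons_zero (e : ℕ) (μ : ℕ →₀ ℕ) : cons e μ 0 = e := by
  rw [cons, Finsupp.add_apply, Finsupp.single_eq_same]
  rw [Finsupp.mapDomain_of_notMem_range _ _
    (by rintro ⟨a, ha⟩; exact absurd ha (Nat.succ_ne_zero a))]
  rfl

theorem cons_succ (e : ℕ) (μ : ℕ →₀ ℕ) (j : ℕ) : cons e μ (j + 1) = μ j := by
  rw [cons, Finsupp.add_apply, Finsupp.single_eq_of_ne (Nat.succ_ne_zero j), zero_add]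
  exact Finsupp.mapDomain_apply Nat.succ_injective μ j

theorem cons_inj (e e' : ℕ) (μ μ' : ℕ →₀ ℕ) (h : cons e μ = cons e' μ') : e = e' ∧ μ = μ' := by
  refine ⟨?_, ?_⟩
  · rw [← cons_zero e μ, h, cons_zero]
  · ext j
    rw [← cons_succ e μ, h, cons_succ]

theorem cons_surj (m : ℕ →₀ ℕ) :
    cons (m 0) (m.comapDomain Nat.succ Nat.succ_injective.injOn) = m := by
  ext j
  cases j with
  | zero => exact cons_zero _ _
  | succ j => rw [cons_succ]; rfl

theorem cons_degree (e : ℕ) (μ : ℕ →₀ ℕ) : (cons e μ).degree = e + μ.degree := by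
  rw [cons, map_add, Finsupp.degree_single, Finsupp.degree_mapDomain]

theorem Psi_monomial (m : ℕ →₀ ℕ) (a : R) : Psi (monomial m a) = Polynomial.monomial (m 0)
    (monomial (m.comapDomain Nat.succ Nat.succ_injective.injOn) a) := by
  have h1 : (monomial m a : MvPolynomial ℕ R) = C a * (X 0 ^ (m 0) *
      rename Nat.succ (monomial (m.comapDomain Nat.succ Nat.succ_injective.injOn) 1)) := by
    rw [rename_monomial, X_pow_eq_monomial, monomial_mul, C_mul_monomial, one_mul, mul_one]
    exact congrArg (fun m' => (monomial m' a : MvPolynomial ℕ R)) (cons_surj m).symm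
  have h2 : ∀ P : MvPolynomial ℕ R, Psi (rename Nat.succ P) = Polynomial.C P := by
    intro P
    have : (Psi : MvPolynomial ℕ R →ₐ[R] Polynomial (MvPolynomial ℕ R)).toRingHom.comp
        (rename Nat.succ : MvPolynomial ℕ R →ₐ[R] MvPolynomial ℕ R).toRingHom =
        Polynomial.C := by
      apply MvPolynomial.ringHom_ext
      · intro b
        show Psi (rename Nat.succ (C b)) = _
        rw [rename_C, Psi_C]
      · intro k
        show Psi (rename Nat.succ (X k)) = _
        rw [rename_X, Psi_Xs]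
    exact congrArg (fun f => f P) this
  conv_lhs => rw [h1]
  rw [map_mul, map_mul, map_pow, Psi_X0, h2, Psi_C, Polynomial.X_pow_mul_C,
    ← Polynomial.C_mul_X_pow_eq_monomial, ← mul_assoc, ← Polynomial.C_mul, C_mul_monomial, mul_one]

theorem coeff_Psi (H : MvPolynomial ℕ R) (e : ℕ) (μ : ℕ →₀ ℕ) :
    coeff μ ((Psi H).coeff e) = coeff (cons e μ) H := by
  classical
  induction H using MvPolynomial.induction_on' with
  | monomial m a =>
    rw [Psi_monomial, Polynomial.coeff_monomial, coeff_monomial]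
    by_cases h : m = cons e μ
    · rw [if_pos h]
      have h0 : m 0 = e := by rw [h, cons_zero]
      have h1 : m.comapDomain Nat.succ Nat.succ_injective.injOn = μ := by
        ext j
        show m (j + 1) = μ j
        rw [h, cons_succ]
      rw [if_pos h0, h1, coeff_monomial, if_pos rfl]
    · rw [if_neg h]
      by_cases h0 : m 0 = e
      · rw [if_pos h0, coeff_monomial, if_neg]
        intro h1
        apply h
        rw [← cons_surj m, h0, h1]
      · rw [if_neg h0, coeff_zero]
  | add p q hp hq =>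
    rw [map_add, Polynomial.coeff_add, coeff_add, coeff_add, hp, hq]

theorem homog_iff (P : MvPolynomial ℕ R) (D : ℕ) :
    P.IsHomogeneous D ↔ ∀ m, coeff m P ≠ 0 → m.degree = D := by
  constructor
  · intro h m hm
    rw [← h hm, Finsupp.degree_eq_weight_one]
    rfl
  · intro h m hm
    have := h m hm
    rwa [Finsupp.degree_eq_weight_one] at this

theorem Psi_coeff_homog {H : MvPolynomial ℕ R} {D : ℕ} (hH : H.IsHomogeneous D) (e : ℕ)
    (he : e ≤ D) : ((Psi H).coeff e).IsHomogeneous (D - e) := by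
  rw [homog_iff] at hH ⊢
  intro m hm
  rw [coeff_Psi] at hm
  have := hH _ hm
  rw [cons_degree] at this
  omega

theorem Psi_coeff_zero {H : MvPolynomial ℕ R} {D : ℕ} (hH : H.IsHomogeneous D) (e : ℕ)
    (he : D < e) : (Psi H).coeff e = 0 := by
  rw [homog_iff] at hH
  ext m
  rw [coeff_Psi, coeff_zero]
  by_contra h
  have := hH _ h
  rw [cons_degree] at this
  omega

theorem degreeOf_zero_iff (P : MvPolynomial ℕ R) (i : ℕ) :
    degreeOf i P = 0 ↔ ∀ m, coeff m P ≠ 0 → m i = 0 := by
  constructor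
  · intro h m hm
    have := monomial_le_degreeOf i (mem_support_iff.mpr hm)
    omega
  · intro h
    rw [degreeOf_eq_sup]
    apply Nat.le_zero.mp
    apply Finset.sup_le
    intro m hm
    rw [h m (mem_support_iff.mp hm)]

theorem Psi_coeff_degreeOf {H : MvPolynomial ℕ R} {i : ℕ} (hH : degreeOf (i + 1) H = 0) (e : ℕ) :
    degreeOf i ((Psi H).coeff e) = 0 := by
  rw [degreeOf_zero_iff] at hH ⊢
  intro m hm
  rw [coeff_Psi] at hm
  have := hH _ hm
  rwa [cons_succ] at this

end Psi

end ABCT.H20
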