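import Pool.Agent.Helper20_ABCT.Ab

/-!
# Values of separated polynomials and orders (MP_a17fcb_ag, part E, modules EPAIR and EDEG)
-/

open MvPolynomial

namespace ABCT.H20

section Ord

variable (hO : OrdStmt) {K : Type} [Field K]
include hO

theorem ord_add {f g : RatFunc K} {n : ℤ} (hf : OrdGe f n) (hg : OrdGe g n) : OrdGe (f + g) n :=
  hO.1 K f g n hf hg

theorem ord_mul {f g : RatFunc K} {m n : ℤ} (hf : OrdGe f m) (hg : OrdGe g n) :
    OrdGe (f * g) (m + n) :=
  hO.2.1 K f g m n hf hg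

theorem ord_mono {f : RatFunc K} {m n : ℤ} (h : m ≤ n) (hf : OrdGe f n) : OrdGe f m :=
  hO.2.2.1 K f m n h hf

theorem ord_C (a : K) : OrdGe (RatFunc.C a) 0 := hO.2.2.2.1 K a

theorem ord_s (m : ℤ) : OrdGe (sVar K ^ m) m := hO.2.2.2.2.1 K m

theorem ord_one : OrdGe (1 : RatFunc K) 0 := by
  have := ord_C hO (1 : K)
  rwa [map_one] at this

omit hO in
theorem ord_zero (n : ℤ) : OrdGe (0 : RatFunc K) n :=
  ⟨0, 1, by simp, by simp⟩

theorem ord_sum {ι : Type*} (s : Finset ι) (f : ι → RatFunc K) (n : ℤ)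
    (h : ∀ i ∈ s, OrdGe (f i) n) : OrdGe (∑ i ∈ s, f i) n := by
  classical
  induction s using Finset.induction_on with
  | empty => simpa using ord_zero n
  | insert a s ha ih =>
    rw [Finset.sum_insert ha]
    exact ord_add hO (h a (Finset.mem_insert_self _ _))
      (ih fun i hi => h i (Finset.mem_insert_of_mem hi))

theorem ord_prod {ι : Type*} (s : Finset ι) (f : ι → RatFunc K) (n : ι → ℤ)
    (h : ∀ i ∈ s, OrdGe (f i) (n i)) : OrdGe (∏ i ∈ s, f i) (∑ i ∈ s, n i) := by
  classical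
  induction s using Finset.induction_on with
  | empty => simpa using ord_one hO
  | insert a s ha ih =>
    rw [Finset.prod_insert ha, Finset.sum_insert ha]
    exact ord_mul hO (h a (Finset.mem_insert_self _ _))
      (ih fun i hi => h i (Finset.mem_insert_of_mem hi))

theorem ord_pow {f : RatFunc K} {n : ℤ} (h : OrdGe f n) (k : ℕ) : OrdGe (f ^ k) (k * n) := by
  induction k with
  | zero => simpa using ord_one hO
  | succ k ih =>
    rw [pow_succ]
    have := ord_mul hO ih h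
    rwa [show (k : ℤ) * n + n = ((k + 1 : ℕ) : ℤ) * n by push_cast; ring] at this

theorem ord_unit {A : Polynomial K} (hA : A.coeff 0 ≠ 0) (e n : ℤ)
    (h : OrdGe (sVar K ^ e * algebraMap (Polynomial K) (RatFunc K) A) n) : n ≤ e := by
  have h1 := ord_mul hO (ord_s hO (K := K) (-e)) h
  have h2 : sVar K ^ (-e) * (sVar K ^ e * algebraMap (Polynomial K) (RatFunc K) A) =
      algebraMap (Polynomial K) (RatFunc K) A := by
    rw [← mul_assoc, ← zpow_add₀ s_ne_zero, neg_add_cancel, zpow_zero, one_mul]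
  rw [h2] at h1
  have h3 := ((hO.2.2.2.2.2.2.1 K A (-e + n) hA).1).mp h1
  omega

theorem ord_Cmul {f : RatFunc K} {n : ℤ} {a : K} (ha : a ≠ 0)
    (h : OrdGe (RatFunc.C a * f) n) : OrdGe f n := by
  have h1 := ord_mul hO (ord_C hO a⁻¹) h
  rwa [← mul_assoc, ← map_mul, inv_mul_cancel₀ ha, map_one, one_mul, zero_add] at h1

end Ord

section Ev

variable {R : Type*} [CommRing R] {K : Type*} [Field K]

/-- the coefficients at the values `y` -/
noncomputable def kap (σ : R →+* K) (y : ℕ → K) : MvPolynomial ℕ R →+* K := eval₂Hom σ y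

theorem eval_pair (σ : R →+* K) (y : ℕ → K) (z : ℕ → RatFunc K) (h0 : z 0 = sVar K)
    (hs : ∀ j, z (j + 1) = RatFunc.C (y j)) (H : MvPolynomial ℕ R) :
    eval₂ (RatFunc.C.comp σ) z H =
      algebraMap (Polynomial K) (RatFunc K) ((Psi H).map (kap σ y)) := by
  have : eval₂Hom (RatFunc.C.comp σ) z =
      ((algebraMap (Polynomial K) (RatFunc K)).comp (Polynomial.mapRingHom (kap σ y))).comp
        (Psi : MvPolynomial ℕ R →ₐ[R] Polynomial (MvPolynomial ℕ R)).toRingHom := by
    apply MvPolynomial.ringHom_ext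
    · intro a
      show eval₂ _ _ (C a) = algebraMap _ _ ((Psi (C a)).map (kap σ y))
      rw [eval₂_C, Psi_C, Polynomial.map_C, RatFunc.algebraMap_C, kap, coe_eval₂Hom, eval₂_C]
      rfl
    · intro k
      show eval₂ _ _ (X k) = algebraMap _ _ ((Psi (X k)).map (kap σ y))
      rw [eval₂_X]
      cases k with
      | zero => rw [Psi_X0, Polynomial.map_X, RatFunc.algebraMap_X, h0]
      | succ j =>
        rw [Psi_Xs, Polynomial.map_C, RatFunc.algebraMap_C, kap, coe_eval₂Hom, eval₂_X, hs]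
  exact congrArg (fun f => f H) this

theorem eval_homog (σ : R →+* K) (y : ℕ → K) (z : ℕ → RatFunc K)
    (hs : ∀ j, z j = sVar K * RatFunc.C (y j)) (P : MvPolynomial ℕ R) (D : ℕ)
    (hP : P.IsHomogeneous D) :
    eval₂ (RatFunc.C.comp σ) z P = sVar K ^ D * RatFunc.C (kap σ y P) := by
  rw [homog_iff] at hP
  rw [kap, coe_eval₂Hom, eval₂_eq, eval₂_eq, map_sum, Finset.mul_sum]
  apply Finset.sum_congr rfl
  intro m hm
  have hd := hP m (mem_support_iff.mp hm)
  have h1 : ∏ i ∈ m.support, z i ^ m i =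
      sVar K ^ D * RatFunc.C (∏ i ∈ m.support, y i ^ m i) := by
    rw [map_prod, ← hd, Finsupp.degree_apply, ← Finset.prod_pow_eq_pow_sum,
      ← Finset.prod_mul_distrib]
    apply Finset.prod_congr rfl
    intro i _
    rw [hs, mul_pow, map_pow]
  rw [h1, map_mul]
  show RatFunc.C (σ _) * _ = _
  ring

theorem eval_deg (σ : R →+* K) (y : ℕ → K) (z : ℕ → RatFunc K) (h0 : z 0 = 1)
    (hs : ∀ j, z (j + 1) = sVar K * RatFunc.C (y j)) (H : MvPolynomial ℕ R) (D : ℕ)
    (hH : H.IsHomogeneous D) (hD : (Psi H).natDegree ≤ D) :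
    eval₂ (RatFunc.C.comp σ) z H = ∑ e ∈ Finset.range ((Psi H).natDegree + 1),
      sVar K ^ (D - e) * RatFunc.C (kap σ y ((Psi H).coeff e)) := by
  conv_lhs => rw [← Tht_Psi H, Tht_eq_sum (Psi H) _ (Nat.lt_succ_self _)]
  rw [← coe_eval₂Hom, map_sum]
  apply Finset.sum_congr rfl
  intro e he
  rw [Finset.mem_range] at he
  rw [map_mul, map_pow, coe_eval₂Hom, eval₂_X, h0, one_pow, mul_one, eval₂_rename]
  exact eval_homog σ y _ (fun j => hs j) _ _ (Psi_coeff_homog hH e (by omega))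

theorem natDegree_Psi_le {H : MvPolynomial ℕ R} {D : ℕ} (hH : H.IsHomogeneous D) :
    (Psi H).natDegree ≤ D := by
  rw [Polynomial.natDegree_le_iff_coeff_eq_zero]
  intro N hN
  exact Psi_coeff_zero hH N (by omega)

end Ev

section Main

variable (hO : OrdStmt) {R : Type*} [CommRing R] {K : Type} [Field K]
include hO

/-- the pair case: divisibility by a power of the first variable -/
theorem pair_dvd (σ : R →+* K) (y : ℕ → K) (z : ℕ → RatFunc K) (h0 : z 0 = sVar K)
    (hs : ∀ j, z (j + 1) = RatFunc.C (y j)) (H : MvPolynomial ℕ R) (hH : H ≠ 0)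
    (hnz : ∀ e, (Psi H).coeff e ≠ 0 → kap σ y ((Psi H).coeff e) ≠ 0) (f : ℤ)
    (hf : OrdGe (eval₂ (RatFunc.C.comp σ) z H) f) : (X 0 : MvPolynomial ℕ R) ^ f.toNat ∣ H := by
  set Q := Psi H with hQ
  have hQ0 : Q ≠ 0 := Psi_ne_zero hH
  set e := Q.natTrailingDegree with he
  have hc : Q.coeff e ≠ 0 := by
    rw [he]; exact Polynomial.trailingCoeff_nonzero_iff_nonzero.mpr hQ0
  obtain ⟨Q', hQ'⟩ : Polynomial.X ^ e ∣ Q := by
    rw [Polynomial.X_pow_dvd_iff]
    intro d hd
    exact Polynomial.coeff_eq_zero_of_lt_natTrailingDegree hd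
  have hc' : Q'.coeff 0 = Q.coeff e := by
    rw [hQ']
    have := Polynomial.coeff_X_pow_mul Q' e 0
    rw [zero_add] at this
    exact this.symm
  rw [eval_pair σ y z h0 hs, ← hQ, hQ', Polynomial.map_mul, Polynomial.map_pow, Polynomial.map_X,
    map_mul, map_pow, RatFunc.algebraMap_X] at hf
  have hf' : OrdGe (sVar K ^ (e : ℤ) * algebraMap (Polynomial K) (RatFunc K)
      (Q'.map (kap σ y))) f := by
    rw [zpow_natCast]; exact hf
  have hle := ord_unit hO (A := Q'.map (kap σ y)) (by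
    rw [Polynomial.coeff_map, hc']; exact hnz e hc) e f hf'
  have hdv : (X 0 : MvPolynomial ℕ R) ^ e ∣ H := by
    refine ⟨Tht Q', ?_⟩
    conv_lhs => rw [← Tht_Psi H, ← hQ, hQ']
    rw [map_mul, map_pow, Tht_X]
  exact (pow_dvd_pow _ (by omega)).trans hdv

/-- the degree case -/
theorem deg_le (σ : R →+* K) (y : ℕ → K) (z : ℕ → RatFunc K) (h0 : z 0 = 1)
    (hs : ∀ j, z (j + 1) = sVar K * RatFunc.C (y j)) (H : MvPolynomial ℕ R) (hH : H ≠ 0) (D : ℕ)
    (hD : H.IsHomogeneous D)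
    (hnz : ∀ e, (Psi H).coeff e ≠ 0 → kap σ y ((Psi H).coeff e) ≠ 0) (f : ℤ)
    (hf : OrdGe (eval₂ (RatFunc.C.comp σ) z H) f) : f ≤ D - (Psi H).natDegree := by
  set Q := Psi H with hQ
  have hQ0 : Q ≠ 0 := Psi_ne_zero hH
  set d := Q.natDegree with hd
  have hdD : d ≤ D := natDegree_Psi_le hD
  have hc : Q.coeff d ≠ 0 := by
    rw [hd]; exact Polynomial.leadingCoeff_ne_zero.mpr hQ0
  rw [eval_deg σ y z h0 hs H D hD hdD, ← hQ, ← hd] at hf
  have h1 : ∑ e ∈ Finset.range (d + 1), sVar K ^ (D - e) * RatFunc.C (kap σ y (Q.coeff e)) =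
      sVar K ^ ((D - d : ℕ) : ℤ) * algebraMap (Polynomial K) (RatFunc K)
        (∑ e ∈ Finset.range (d + 1), Polynomial.X ^ (d - e) *
          Polynomial.C (kap σ y (Q.coeff e))) := by
    rw [map_sum, Finset.mul_sum]
    apply Finset.sum_congr rfl
    intro e he
    rw [Finset.mem_range] at he
    rw [map_mul, map_pow, RatFunc.algebraMap_X, RatFunc.algebraMap_C, zpow_natCast, ← mul_assoc,
      ← pow_add]
    congr 2
    omega
  rw [h1] at hf
  have hle := ord_unit hO (A := ∑ e ∈ Finset.range (d + 1), Polynomial.X ^ (d - e) *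
          Polynomial.C (kap σ y (Q.coeff e))) (by
    rw [Polynomial.finset_sum_coeff, Finset.sum_eq_single d]
    · rw [Nat.sub_self, pow_zero, one_mul, Polynomial.coeff_C_zero]
      exact hnz d hc
    · intro e he hne
      rw [Finset.mem_range] at he
      rw [Polynomial.coeff_mul_C, Polynomial.coeff_X_pow, if_neg (by omega), zero_mul]
    · intro h
      exact absurd (Finset.mem_range.mpr (Nat.lt_succ_self d)) h) _ f hf
  omega

end Main

end ABCT.H20
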