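import Pool.Agent.Helper20_ABCT.Ab2

/-!
# Values of the gaps of a twisted generic vertex in a context (MP_a17fcb_ag, part E, EPAIR, EDEG)
-/

open MvPolynomial

namespace ABCT.H20

open FlatCell

theorem finite_G : ∀ S : Net, Finite S.G
  | Net.black _ => inferInstanceAs (Finite Empty)
  | Net.white _ => inferInstanceAs (Finite Empty)
  | Net.gen l _ => inferInstanceAs (Finite (Fin (l.length - 2)))
  | Net.dsum S T => by
      have := finite_G S
      have := finite_G T
      exact inferInstanceAs (Finite (S.G ⊕ T.G))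
  | Net.tsum S T _ => by
      have := finite_G S
      have := finite_G T
      exact inferInstanceAs (Finite (S.G ⊕ T.G))

theorem finite_R : ∀ C : Ctx, Finite C.R
  | Ctx.hole => inferInstanceAs (Finite Empty)
  | Ctx.dsumL C T => by
      have := finite_R C
      have := finite_G T
      exact inferInstanceAs (Finite (C.R ⊕ T.G))
  | Ctx.dsumR T C => by
      have := finite_R C
      have := finite_G T
      exact inferInstanceAs (Finite (T.G ⊕ C.R))
  | Ctx.tsumL C T _ => by
      have := finite_R C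
      have := finite_G T
      exact inferInstanceAs (Finite (C.R ⊕ T.G))
  | Ctx.tsumR T C _ => by
      have := finite_R C
      have := finite_G T
      exact inferInstanceAs (Finite (T.G ⊕ C.R))

theorem valid_of_app : ∀ (C : Ctx) (N : Net), (C.app N).Valid → N.Valid
  | Ctx.hole, _, h => h
  | Ctx.dsumL C _, N, h => valid_of_app C N h.1
  | Ctx.dsumR _ C, N, h => valid_of_app C N h.2.1
  | Ctx.tsumL C _ _, N, h => valid_of_app C N h.1
  | Ctx.tsumR _ C _, N, h => valid_of_app C N h.2.1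

section gapv

variable (C : Ctx) (l l' : List ℕ) (r : ℕ) (ε : Finset ℕ → ℤ) {T' : FlatCell}
  (Φ : FacetData (C.app (Net.gen l' r)).flat T')

/-- the value of the inner gap `h` of `T` -/
noncomputable def pg (h : ℕ) : RatFunc T'.F :=
  if hh : h < l'.length - 2 then
    Φ.psi (Sum.inr (C.gi (Net.gen l' r) (⟨h, hh⟩ : Fin (l'.length - 2)))) else 0

/-- the position of the label `x` -/
noncomputable def tt (x : ℕ) : RatFunc T'.F := ∑ h ∈ Finset.range (l'.idxOf x), pg C l' r Φ h

theorem sum_filter_fin {M : Type*} [AddCommMonoid M] (n i : ℕ) (f : Fin n → M) :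
    ∑ h ∈ Finset.univ.filter (fun h : Fin n => h.1 < i), f h =
      ∑ h ∈ Finset.range i, (if hh : h < n then f ⟨h, hh⟩ else 0) := by
  classical
  rw [Finset.sum_filter]
  have h1 := Fin.sum_univ_eq_sum_range
    (fun h => if h < i then (if hh : h < n then f ⟨h, hh⟩ else 0) else 0) n
  have h2 : ∑ h : Fin n, (if h.1 < i then f h else 0) =
      ∑ h : Fin n, (if h.1 < i then (if hh : h.1 < n then f ⟨h.1, hh⟩ else 0) else 0) := by
    apply Finset.sum_congr rfl
    intro h _
    rw [dif_pos h.2]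
  rw [h2, h1, ← Finset.sum_filter]
  apply Finset.sum_subset_zero_on_sdiff
  · intro h hh
    rw [Finset.mem_filter] at hh
    exact Finset.mem_range.mpr hh.2
  · intro h hh
    rw [Finset.mem_sdiff, Finset.mem_filter, Finset.mem_range, Finset.mem_range] at hh
    rw [dif_neg]
    intro h'
    exact hh.2 ⟨h', hh.1⟩
  · intro h _; rfl

theorem aeval_tv (x : ℕ) : aeval (fun k : (C.app (Net.gen l' r)).G => Φ.psi (Sum.inr k))
    (rename (C.gi (Net.gen l' r)) (tv l' x)) = tt C l' r Φ x := by
  rw [tv, map_sum, map_sum]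
  have : ∀ h : Fin (l'.length - 2), aeval (fun k : (C.app (Net.gen l' r)).G => Φ.psi (Sum.inr k))
      (rename (C.gi (Net.gen l' r)) (X h : MvPolynomial (Fin (l'.length - 2)) ℤ)) =
      Φ.psi (Sum.inr (C.gi (Net.gen l' r) h)) := by
    intro h
    rw [rename_X, aeval_X]
  rw [Finset.sum_congr rfl fun h _ => this h, sum_filter_fin]
  rfl

theorem gap_gi (k : ℕ) (hk : k < l.length - 2) :
    (twist C l l' r ε).gap Φ (C.gi (Net.gen l r) (⟨k, hk⟩ : Fin (l.length - 2))) =
      tt C l' r Φ (l.getD (k + 1) 0) - tt C l' r Φ (l.getD k 0) := by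
  have h1 : (twist C l l' r ε).L' (C.gi (Net.gen l r) (⟨k, hk⟩ : Fin (l.length - 2))) =
      rename (C.gi (Net.gen l' r)) (tv l' (l.getD (k + 1) 0) - tv l' (l.getD k 0)) := by
    show twL C l' l r _ = _
    rw [twL, show C.ge (Net.gen l r) (C.gi (Net.gen l r) (⟨k, hk⟩ : Fin (l.length - 2))) =
      Sum.inl (⟨k, hk⟩ : Fin (l.length - 2)) from Equiv.apply_symm_apply _ _]
  rw [Twist.gap, h1, map_sub, map_sub, aeval_tv, aeval_tv]

theorem gap_go (h : C.R) : (twist C l l' r ε).gap Φ (C.go (Net.gen l r) h) =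
    Φ.psi (Sum.inr (C.go (Net.gen l' r) h)) := by
  have h1 : (twist C l l' r ε).L' (C.go (Net.gen l r) h) = X (C.go (Net.gen l' r) h) := by
    show twL C l' l r _ = _
    rw [twL, show C.ge (Net.gen l r) (C.go (Net.gen l r) h) = Sum.inr h from
      Equiv.apply_symm_apply _ _]
  rw [Twist.gap, h1, aeval_X]

theorem eval_D (a b : ℕ) (hab : a ≤ b) (hb : b ≤ l.length - 2) :
    eval₂ (Nat.castRingHom (RatFunc T'.F)) (fun h => (twist C l l' r ε).gap Φ h)
      (rename (C.gi (Net.gen l r)) (Net.D (l.length - 2) a b)) =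
      tt C l' r Φ (l.getD b 0) - tt C l' r Φ (l.getD a 0) := by
  rw [eval₂_rename, Net.D, ← coe_eval₂Hom, map_sum]
  have h1 : ∀ h : Fin (l.length - 2), eval₂Hom (Nat.castRingHom (RatFunc T'.F))
      ((fun h => (twist C l l' r ε).gap Φ h) ∘ C.gi (Net.gen l r)) (X h) =
      tt C l' r Φ (l.getD (h.1 + 1) 0) - tt C l' r Φ (l.getD h.1 0) := by
    intro h
    rw [coe_eval₂Hom, eval₂_X]
    exact gap_gi C l l' r ε Φ h.1 h.2
  rw [Finset.sum_congr rfl fun h _ => h1 h]
  have h2 : ∑ h ∈ Finset.univ.filter (fun h : Fin (l.length - 2) => a ≤ h.1 ∧ h.1 < b),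
      (tt C l' r Φ (l.getD (h.1 + 1) 0) - tt C l' r Φ (l.getD h.1 0)) =
      ∑ h ∈ Finset.Ico a b, (tt C l' r Φ (l.getD (h + 1) 0) - tt C l' r Φ (l.getD h 0)) := by
    apply Finset.sum_nbij (fun h => h.1)
    · intro h hh
      rw [Finset.mem_filter] at hh
      exact Finset.mem_Ico.mpr hh.2
    · intro x _ y _ hxy
      exact Fin.ext hxy
    · intro h hh
      rw [Finset.coe_Ico, Set.mem_Ico] at hh
      exact ⟨⟨h, by omega⟩, by simp [hh], rfl⟩
    · intro h _; rfl
  rw [h2, Finset.sum_Ico_eq_sum_range]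
  have h3 : ∀ n, ∑ k ∈ Finset.range n, (tt C l' r Φ (l.getD (a + k + 1) 0) -
      tt C l' r Φ (l.getD (a + k) 0)) = tt C l' r Φ (l.getD (a + n) 0) -
        tt C l' r Φ (l.getD a 0) := by
    intro n
    induction n with
    | zero => simp
    | succ n ih => rw [Finset.sum_range_succ, ih]; ring_nf
  rw [h3]
  congr 3
  omega

end gapv

end ABCT.H20
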