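import Pool.Agent.Helper20_ABCT.Core

/-!
# The inequality for a facet of a twist (MP_a17fcb_ag, part E, EPAIR, EDEG)
-/

open MvPolynomial

namespace ABCT.H20

open FlatCell

section vals

variable (C : Ctx) (l l' : List ℕ) (r : ℕ) (ε : Finset ℕ → ℤ) {T' : FlatCell}
  (Φ : FacetData (C.app (Net.gen l' r)).flat T')

/-- differences of positions -/
noncomputable def dd (a b : ℕ) : RatFunc T'.F :=
  tt C l' r Φ (l.getD b 0) - tt C l' r Φ (l.getD a 0)

theorem tt_sub {x y : ℕ} (h : l'.idxOf x ≤ l'.idxOf y) : tt C l' r Φ y - tt C l' r Φ x =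
    ∑ k ∈ Finset.Ico (l'.idxOf x) (l'.idxOf y), pg C l' r Φ k := by
  rw [tt, tt, Finset.sum_Ico_eq_sub _ h]

theorem pg_eq (h : ℕ) (hh : h < l'.length - 2) : pg C l' r Φ h =
    Φ.psi (Sum.inr (C.gi (Net.gen l' r) (⟨h, hh⟩ : Fin (l'.length - 2)))) := by
  rw [pg, dif_pos hh]

theorem tt_sub_ne (hpos : ∀ v, T'.Pos (Φ.w v)) {x y : ℕ} (h : l'.idxOf x < l'.idxOf y)
    (hy : l'.idxOf y ≤ l'.length - 2) : tt C l' r Φ y - tt C l' r Φ x ≠ 0 := by
  rw [tt_sub C l' r Φ h.le]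
  apply PosR.ne_zero
  apply PosR.sum
  · exact Finset.nonempty_Ico.mpr h
  · intro k hk
    rw [Finset.mem_Ico] at hk
    rw [pg_eq C l' r Φ k (by omega)]
    exact psi_pos Φ hpos _

theorem pg_ne (hpos : ∀ v, T'.Pos (Φ.w v)) (k : ℕ) (hk : k < l'.length - 2) :
    pg C l' r Φ k ≠ 0 := by
  rw [pg_eq C l' r Φ k hk]
  exact (psi_pos Φ hpos _).ne_zero

end vals

theorem finprod_gap {L : Type*} [CommMonoid L] (C : Ctx) (N : Net) [Fintype N.G] [Fintype C.R]
    (F : (C.app N).G → L) : ∏ᶠ g, F g = (∏ h : N.G, F (C.gi N h)) * ∏ h : C.R, F (C.go N h) := by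
  rw [← finprod_comp_equiv (C.ge N).symm, finprod_eq_prod_of_fintype, Fintype.prod_sum_type]
  rfl

theorem idx_lt {l0 : List ℕ} {ρ x : ℕ} (hx : x ∈ l0) : (l0 ++ [ρ]).idxOf x < l0.length := by
  rw [List.idxOf_append_of_mem hx]
  exact List.idxOf_lt_length_of_mem hx

theorem getD_mem {l0 : List ℕ} {ρ a : ℕ} (ha : a < l0.length) : (l0 ++ [ρ]).getD a 0 ∈ l0 := by
  rw [List.getD_append _ _ _ _ ha, List.getD_eq_getElem _ _ ha]
  exact List.getElem_mem ha

theorem dd_ne (C : Ctx) (l0 l0' : List ℕ) (ρ r : ℕ) {T' : FlatCell}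
    (Φ : FacetData (C.app (Net.gen (l0' ++ [ρ]) r)).flat T') (hpos : ∀ v, T'.Pos (Φ.w v))
    (hnd : l0.Nodup) (hp : l0.Perm l0') (a b : ℕ) (hab : a < b) (hb : b < l0.length) :
    dd C (l0 ++ [ρ]) (l0' ++ [ρ]) r Φ a b ≠ 0 := by
  rw [dd]
  have hxa : (l0 ++ [ρ]).getD a 0 ∈ l0' := hp.subset (getD_mem (by omega))
  have hxb : (l0 ++ [ρ]).getD b 0 ∈ l0' := hp.subset (getD_mem hb)
  have hlen : (l0' ++ [ρ]).length - 2 = l0'.length - 1 := by simp
  have ia := idx_lt (ρ := ρ) hxa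
  have ib := idx_lt (ρ := ρ) hxb
  have hne : (l0 ++ [ρ]).getD a 0 ≠ (l0 ++ [ρ]).getD b 0 := by
    rw [List.getD_append _ _ _ _ (by omega), List.getD_append _ _ _ _ hb,
      List.getD_eq_getElem _ _ (by omega), List.getD_eq_getElem _ _ hb]
    intro h
    have := (List.Nodup.getElem_inj_iff hnd).mp h
    omega
  have hidx : (l0' ++ [ρ]).idxOf ((l0 ++ [ρ]).getD a 0) ≠
      (l0' ++ [ρ]).idxOf ((l0 ++ [ρ]).getD b 0) := by
    intro h
    exact hne ((List.idxOf_inj (List.mem_append_left _ hxa)).mp h)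
  rcases lt_or_gt_of_ne hidx with h | h
  · exact tt_sub_ne C _ r Φ hpos h (by omega)
  · have := tt_sub_ne C _ r Φ hpos h (by omega)
    intro h'
    apply this
    rw [← neg_sub, h', neg_zero]

/-- the value of a coordinate at the gap values -/
theorem eval_Delta (C : Ctx) (l l' : List ℕ) (r : ℕ) (ε : Finset ℕ → ℤ) {T' : FlatCell}
    (Φ : FacetData (C.app (Net.gen l' r)).flat T') (J : Finset ℕ → Finset ℕ)
    (Rp : Finset ℕ → MvPolynomial C.R ℕ) (k : ℕ → ℕ) (hJ : CtxJ C (Net.gen l r) J Rp k)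
    (y : C.R → T'.F) (hy : ∀ h, Φ.psi (Sum.inr (C.go (Net.gen l' r) h)) = RatFunc.C (y h))
    (I : Finset ℕ) (hI : I ∈ (C.app (Net.gen l r)).M) :
    eval₂ (Nat.castRingHom (RatFunc T'.F)) (fun h => (twist C l l' r ε).gap Φ h)
      ((C.app (Net.gen l r)).Δ I) = (∏ p ∈ Net.prs l (J I), dd C l l' r Φ p.1 p.2) *
        RatFunc.C (eval₂ (Nat.castRingHom T'.F) y (Rp I)) := by
  obtain ⟨h1, h2, h3, h4⟩ := hJ I hI
  rw [h3, eval₂_mul]
  congr 1
  · have e1 : (Net.gen l r).Δ (J I) = ∏ p ∈ Net.prs l (J I), Net.D (l.length - 2) p.1 p.2 := by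
      show (if J I ∈ (Net.gen l r).M then _ else _) = _
      rw [if_pos h1]
    rw [e1, map_prod, ← coe_eval₂Hom, map_prod]
    apply Finset.prod_congr rfl
    intro p hp
    rw [Net.prs, Finset.mem_filter, Finset.mem_product, Finset.mem_range, Finset.mem_range] at hp
    exact eval_D C l l' r ε Φ p.1 p.2 hp.2.1.le (by omega)
  · rw [eval₂_rename]
    have e2 : ((fun h => (twist C l l' r ε).gap Φ h) ∘ C.go (Net.gen l r)) =
        fun h => RatFunc.C (y h) := by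
      funext h
      show (twist C l l' r ε).gap Φ (C.go (Net.gen l r) h) = _
      rw [gap_go, hy]
    rw [e2, hom_eval₂]
    congr 1
    exact Subsingleton.elim _ _

end ABCT.H20
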