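import Pool.Agent.Helper20_ABCT.Core2

/-!
# The inequality for a facet of a twist, conclusion (MP_a17fcb_ag, part E, EPAIR, EDEG)
-/

open MvPolynomial

namespace ABCT.H20

open FlatCell

/-- the sum over the labels -/
theorem label_sum (hCV : CtxVStmt) (hCB : CtxBStmt) (C : Ctx) (N N' : Net)
    (φ : FacetData N.flat N'.flat) (hV : (C.app N).Valid) (f : ℕ → ℤ) :
    ∑ i ∈ (C.app N).E, (C.fd φ).lam (Sum.inl i) * f i =
      ∑ x ∈ N.E, φ.lam (Sum.inl x) * ∑ i ∈ C.blk x, f i := by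
  classical
  obtain ⟨h1, h2, -, -⟩ := hCV C N N' φ hV
  obtain ⟨h3, h4⟩ := hCB C N hV
  have hsub : N.E.biUnion C.blk ⊆ (C.app N).E := by
    intro i hi
    rw [Finset.mem_biUnion] at hi
    obtain ⟨x, hx, hi⟩ := hi
    exact h3 x hx hi
  rw [← Finset.sum_subset hsub, Finset.sum_biUnion]
  · apply Finset.sum_congr rfl
    intro x hx
    rw [Finset.mul_sum]
    apply Finset.sum_congr rfl
    intro i hi
    rw [(h1 x hx i hi).1]
  · intro x hx y hy hxy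
    exact h4 x hx y hy hxy
  · intro i hi hni
    rw [(h2 i hi ?_).1, zero_mul]
    intro x hx hix
    exact hni (Finset.mem_biUnion.mpr ⟨x, hx, hix⟩)

theorem prs_pairs (l : List ℕ) (I : Finset ℕ) (w : ℕ → ℕ → ℤ) :
    ∑ p ∈ Net.prs l I, w p.1 p.2 = ∑ b ∈ Finset.range (l.length - 1), ∑ a ∈ Finset.range b,
      if l.getD a 0 ∈ I ∧ l.getD b 0 ∈ I then w a b else 0 := by
  classical
  rw [Net.prs, Finset.sum_filter, Finset.sum_product_right]
  apply Finset.sum_congr rfl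
  intro b hb
  rw [Finset.mem_range] at hb
  have : ∀ a ∈ Finset.range (l.length - 1), (if a < b ∧ l.getD a 0 ∈ I ∧ l.getD b 0 ∈ I then w a b
      else 0) = if a < b then (if l.getD a 0 ∈ I ∧ l.getD b 0 ∈ I then w a b else 0) else 0 := by
    intro a _
    by_cases h : a < b
    · simp [h]
    · simp [h]
  rw [Finset.sum_congr rfl this, ← Finset.sum_filter]
  apply Finset.sum_congr _ (fun _ _ => rfl)
  ext a
  rw [Finset.mem_filter, Finset.mem_range, Finset.mem_range]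
  omega

theorem sum_kk (C : Ctx) (l : List ℕ) (r n : ℕ) (J : Finset ℕ → Finset ℕ) (w : ℕ → ℕ → ℤ) :
    ∑ I ∈ (C.app (Net.gen l r)).M, (n : ℤ) * ∑ p ∈ Net.prs l (J I), w p.1 p.2 =
      ∑ b ∈ Finset.range (l.length - 1), ∑ a ∈ Finset.range b, w a b * kk C l r n J a b := by
  classical
  have h1 : ∀ I ∈ (C.app (Net.gen l r)).M, (n : ℤ) * ∑ p ∈ Net.prs l (J I), w p.1 p.2 =
      ∑ b ∈ Finset.range (l.length - 1), ∑ a ∈ Finset.range b,
        (n : ℤ) * (if l.getD a 0 ∈ J I ∧ l.getD b 0 ∈ J I then w a b else 0) := by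
    intro I _
    rw [prs_pairs, Finset.mul_sum]
    apply Finset.sum_congr rfl
    intro b _
    rw [Finset.mul_sum]
  rw [Finset.sum_congr rfl h1, Finset.sum_comm]
  apply Finset.sum_congr rfl
  intro b _
  rw [Finset.sum_comm]
  apply Finset.sum_congr rfl
  intro a _
  rw [← Finset.mul_sum, ← Finset.sum_filter, Finset.sum_const, kk, nsmul_eq_mul]
  push_cast
  ring

theorem core (hO : OrdStmt) (hStar : EstarStmt) (hLink : ElinkStmt) (hCV : CtxVStmt)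
    (hCB : CtxBStmt) (hCOk : CtxOkStmt) (hCF : CtxFStmt) (hTw : TwcStmt)
    (C : Ctx) (l0 l0' : List ℕ) (ρ r n : ℕ) (N : MvPolynomial (Finset ℕ) ℂ) (v : ℕ →₀ ℕ)
    (J : Finset ℕ → Finset ℕ) (Rp : Finset ℕ → MvPolynomial C.R ℕ) (k : ℕ → ℕ)
    (hV : (C.app (Net.gen (l0 ++ [ρ]) r)).Valid) (hJ : CtxJ C (Net.gen (l0 ++ [ρ]) r) J Rp k)
    (hE : HypE (C.app (Net.gen (l0 ++ [ρ]) r)) n N)
    (hcf : cf (C.app (Net.gen (l0 ++ [ρ]) r)).flat N v ≠ 0) (hp : l0.Perm l0') :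
    ∃ H' : MvPolynomial ℕ (Fr C.R),
      Ht C (l0 ++ [ρ]) r (cf (C.app (Net.gen (l0 ++ [ρ]) r)).flat N v) =
        aeval (fun k : ℕ => (X (l0.idxOf (l0'.getD (k + 1) 0)) -
          X (l0.idxOf (l0'.getD k 0)) : MvPolynomial ℕ (Fr C.R))) H' ∧
      (∀ j, l0.length ≤ j + 1 → degreeOf j H' = 0) ∧
      (∀ d, (Ht C (l0 ++ [ρ]) r (cf (C.app (Net.gen (l0 ++ [ρ]) r)).flat N v)).IsHomogeneous d →
        H'.IsHomogeneous d) ∧
      ∀ (N' : Net) (φ : FacetData (Net.gen (l0' ++ [ρ]) r).flat N'.flat),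
        Net.Facet (Net.gen (l0' ++ [ρ]) r) N' → φ.Ok → ∀ (w : ℕ → ℕ → ℤ) (γ : ℤ),
        (∀ a b, a < b → b < l0.length →
          OrdGe (dd C (l0 ++ [ρ]) (l0' ++ [ρ]) r (C.fd φ) a b) (w a b)) →
        OrdGe ((∏ j ∈ Finset.range (l0.length - 1),
            dd C (l0 ++ [ρ]) (l0' ++ [ρ]) r (C.fd φ) j (j + 1)) /
          ∏ j ∈ Finset.range (l0.length - 1), pg C (l0' ++ [ρ]) r (C.fd φ) j) γ →
        OrdGe (eval₂ (RatFunc.C.comp (liftF (C.vo N'))) (pg C (l0' ++ [ρ]) r (C.fd φ)) H')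
          (1 - ∑ x ∈ (l0' ++ [ρ]).toFinset, φ.lam (Sum.inl x) *
              (∑ i ∈ C.blk x, ww (C.app (Net.gen (l0 ++ [ρ]) r)).flat n v i) +
            ∑ b ∈ Finset.range l0.length, ∑ a ∈ Finset.range b,
              w a b * kk C (l0 ++ [ρ]) r n J a b + γ) := by
  classical
  obtain ⟨hVT, ε, hτ⟩ := hTw C l0 l0' ρ r hV hp
  obtain ⟨H', hH1, hH2, hH3, hH4⟩ := hLink C l0 l0' ρ r ε
    (cf (C.app (Net.gen (l0 ++ [ρ]) r)).flat N v) hV hp
  refine ⟨H', hH1, hH2, hH4, ?_⟩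
  intro N' φ hfac hφ w γ hw hγ
  have hgT : (Net.gen (l0' ++ [ρ]) r).Valid := valid_of_app C _ hVT
  have hgS : (Net.gen (l0 ++ [ρ]) r).Valid := valid_of_app C _ hV
  have hal := hCF.2 (l0' ++ [ρ]) r N' hgT hfac
  have hfacC := (hCF.1 C _ N' hVT hfac hal).1
  have hΦ : (C.fd φ).Ok := hCOk C _ N' φ hVT hfac hal hφ
  have hord := hE (C.app (Net.gen (l0' ++ [ρ]) r))
    (twist C (l0 ++ [ρ]) (l0' ++ [ρ]) r ε) hVT hτ (C.app N') hfacC (C.fd φ) hΦ
  have hwfS := wfStmt _ hV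
  have hwfT := wfStmt _ hVT
  have hU : ∀ I ∈ (C.app (Net.gen (l0 ++ [ρ]) r)).flat.M,
      I ⊆ (C.app (Net.gen (l0' ++ [ρ]) r)).E := by
    intro I hI
    have : I ∈ (C.app (Net.gen (l0' ++ [ρ]) r)).M := by
      have h := hτ.meq
      change (C.app (Net.gen (l0' ++ [ρ]) r)).M = (C.app (Net.gen (l0 ++ [ρ]) r)).M at h
      rw [h]
      exact hI
    exact (hwfT.2 I this).1
  have hst := hStar (C.app (Net.gen (l0 ++ [ρ]) r)).flat (C.app (Net.gen (l0' ++ [ρ]) r)).flat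
    (C.app N').flat (twist C (l0 ++ [ρ]) (l0' ++ [ρ]) r ε) (C.fd φ) n N
    (C.app (Net.gen (l0' ++ [ρ]) r)).E hwfS.1 hwfT.1 (finite_G _) (finite_G _) hU hτ hΦ hord v hcf
  rw [label_sum hCV hCB C (Net.gen (l0' ++ [ρ]) r) N' φ hVT
    (ww (C.app (Net.gen (l0 ++ [ρ]) r)).flat n v)] at hst
  rw [hH3 N' φ] at hst
  set Φ := C.fd φ with hΦdef
  set A := eval₂ (RatFunc.C.comp (liftF (C.vo N'))) (pg C (l0' ++ [ρ]) r Φ) H' with hA
  have hAeq : eval₂ (RatFunc.C.comp (liftF (C.vo N'))) (fun k : ℕ =>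
      if hk : k < (l0' ++ [ρ]).length - 2 then
        Φ.psi (Sum.inr (C.gi (Net.gen (l0' ++ [ρ]) r) (⟨k, hk⟩ :
          Fin ((l0' ++ [ρ]).length - 2)))) else 0) H' = A := rfl
  rw [hAeq] at hst
  have hlen' : (l0' ++ [ρ]).length - 2 = l0.length - 1 := by
    rw [hp.length_eq]; simp
  have hlen : (l0 ++ [ρ]).length - 2 = l0.length - 1 := by simp
  have hnd : l0.Nodup := by
    have := hgS.1
    exact (List.nodup_append.mp this).1
  have hpos : ∀ v, (C.app N').flat.Pos (Φ.w v) := hΦ.wpos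
  -- outer gaps
  let y : C.R → (C.app N').flat.F := fun h => xx (Sum.inr (C.go N' h))
  have hy : ∀ h, Φ.psi (Sum.inr (C.go (Net.gen (l0' ++ [ρ]) r) h)) = RatFunc.C (y h) := by
    intro h
    obtain ⟨e1, e2⟩ := (hCV C (Net.gen (l0' ++ [ρ]) r) N' φ hVT).2.2.2 h
    rw [FacetData.psi, e1, e2, zpow_zero, one_mul]
  have hypos : ∀ h, PosF (y h) := fun h => PosF.x _
  -- the denominator
  have hB : ∏ I ∈ (C.app (Net.gen (l0 ++ [ρ]) r)).flat.M,
      eval₂ (Nat.castRingHom (RatFunc (C.app N').flat.F))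
        (fun h => (twist C (l0 ++ [ρ]) (l0' ++ [ρ]) r ε).gap Φ h)
        ((C.app (Net.gen (l0 ++ [ρ]) r)).flat.Δ I) ^ n =
      (∏ I ∈ (C.app (Net.gen (l0 ++ [ρ]) r)).M, (∏ p ∈ Net.prs (l0 ++ [ρ]) (J I),
        dd C (l0 ++ [ρ]) (l0' ++ [ρ]) r Φ p.1 p.2) ^ n) *
      RatFunc.C (∏ I ∈ (C.app (Net.gen (l0 ++ [ρ]) r)).M,
        eval₂ (Nat.castRingHom (C.app N').flat.F) y (Rp I) ^ n) := by
    rw [map_prod, ← Finset.prod_mul_distrib]
    apply Finset.prod_congr rfl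
    intro I hI
    rw [eval_Delta C _ _ r ε Φ J Rp k hJ y hy I hI, mul_pow, map_pow]
  have hc : (∏ I ∈ (C.app (Net.gen (l0 ++ [ρ]) r)).M,
      eval₂ (Nat.castRingHom (C.app N').flat.F) y (Rp I) ^ n) ≠ 0 := by
    apply Finset.prod_ne_zero_iff.mpr
    intro I hI
    exact pow_ne_zero _ (PosF.eval₂ y hypos (Rp I) (hJ I hI).2.1).ne_zero
  rw [hB] at hst
  set P0 := ∏ I ∈ (C.app (Net.gen (l0 ++ [ρ]) r)).M, (∏ p ∈ Net.prs (l0 ++ [ρ]) (J I),
        dd C (l0 ++ [ρ]) (l0' ++ [ρ]) r Φ p.1 p.2) ^ n with hP0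
  set c := (∏ I ∈ (C.app (Net.gen (l0 ++ [ρ]) r)).M,
      eval₂ (Nat.castRingHom (C.app N').flat.F) y (Rp I) ^ n) with hcdef
  have hdd : ∀ a b, a < b → b < l0.length → dd C (l0 ++ [ρ]) (l0' ++ [ρ]) r Φ a b ≠ 0 :=
    fun a b hab hb => dd_ne C l0 l0' ρ r Φ hpos hnd hp a b hab hb
  have hprs : ∀ I, ∀ p ∈ Net.prs (l0 ++ [ρ]) I, p.1 < p.2 ∧ p.2 < l0.length := by
    intro I p hp'
    rw [Net.prs, Finset.mem_filter, Finset.mem_product, Finset.mem_range, Finset.mem_range] at hp'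
    have : (l0 ++ [ρ]).length - 1 = l0.length := by simp
    exact ⟨hp'.2.1, by omega⟩
  have hP0ne : P0 ≠ 0 := by
    apply Finset.prod_ne_zero_iff.mpr
    intro I _
    apply pow_ne_zero
    apply Finset.prod_ne_zero_iff.mpr
    intro p hp'
    exact hdd _ _ (hprs _ p hp').1 (hprs _ p hp').2
  have hP0ord : OrdGe P0 (∑ b ∈ Finset.range l0.length, ∑ a ∈ Finset.range b,
      w a b * kk C (l0 ++ [ρ]) r n J a b) := by
    have h1 := sum_kk C (l0 ++ [ρ]) r n J w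
    have h2 : (l0 ++ [ρ]).length - 1 = l0.length := by simp
    rw [h2] at h1
    rw [← h1]
    refine ord_prod hO (C.app (Net.gen (l0 ++ [ρ]) r)).M
      (fun I => (∏ p ∈ Net.prs (l0 ++ [ρ]) (J I),
        dd C (l0 ++ [ρ]) (l0' ++ [ρ]) r Φ p.1 p.2) ^ n)
      (fun I => (n : ℤ) * ∑ p ∈ Net.prs (l0 ++ [ρ]) (J I), w p.1 p.2) ?_
    intro I _
    refine ord_pow hO (ord_prod hO (Net.prs (l0 ++ [ρ]) (J I))
      (fun p => dd C (l0 ++ [ρ]) (l0' ++ [ρ]) r Φ p.1 p.2) (fun p => w p.1 p.2) ?_) n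
    intro p hp'
    exact hw _ _ (hprs _ p hp').1 (hprs _ p hp').2
  -- the gaps
  have : Fintype C.R := by
    have := finite_R C
    exact Fintype.ofFinite _
  have hG1 : ∏ᶠ g : (C.app (Net.gen (l0' ++ [ρ]) r)).G, Φ.psi (Sum.inr g) =
      (∏ j ∈ Finset.range (l0.length - 1), pg C (l0' ++ [ρ]) r Φ j) *
        RatFunc.C (∏ h : C.R, y h) := by
    have e1 := finprod_gap C (Net.gen (l0' ++ [ρ]) r)
      (fun g => Φ.psi (Sum.inr g))
    rw [e1]
    congr 1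
    · rw [← hlen', ← Fin.prod_univ_eq_prod_range]
      apply Finset.prod_congr rfl
      intro j _
      rw [pg_eq C _ r Φ j.1 j.2]
    · rw [map_prod]
      apply Finset.prod_congr rfl
      intro h _
      exact hy h
  have hG2 : ∏ᶠ g : (C.app (Net.gen (l0 ++ [ρ]) r)).G,
      (twist C (l0 ++ [ρ]) (l0' ++ [ρ]) r ε).gap Φ g =
      (∏ j ∈ Finset.range (l0.length - 1), dd C (l0 ++ [ρ]) (l0' ++ [ρ]) r Φ j (j + 1)) *
        RatFunc.C (∏ h : C.R, y h) := by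
    have e1 := finprod_gap C (Net.gen (l0 ++ [ρ]) r)
      (fun g => (twist C (l0 ++ [ρ]) (l0' ++ [ρ]) r ε).gap Φ g)
    rw [e1]
    congr 1
    · rw [← hlen, ← Fin.prod_univ_eq_prod_range]
      apply Finset.prod_congr rfl
      intro j _
      exact gap_gi C _ _ r ε Φ j.1 j.2
    · rw [map_prod]
      apply Finset.prod_congr rfl
      intro h _
      rw [gap_go]
      exact hy h
  have hyne : RatFunc.C (∏ h : C.R, y h) ≠ 0 := by
    rw [Ne, map_eq_zero]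
    exact Finset.prod_ne_zero_iff.mpr fun h _ => (hypos h).ne_zero
  have hpgne : (∏ j ∈ Finset.range (l0.length - 1), pg C (l0' ++ [ρ]) r Φ j) ≠ 0 := by
    apply Finset.prod_ne_zero_iff.mpr
    intro j hj
    rw [Finset.mem_range] at hj
    exact pg_ne C _ r Φ hpos j (by omega)
  have hddne : (∏ j ∈ Finset.range (l0.length - 1),
      dd C (l0 ++ [ρ]) (l0' ++ [ρ]) r Φ j (j + 1)) ≠ 0 := by
    apply Finset.prod_ne_zero_iff.mpr
    intro j hj
    rw [Finset.mem_range] at hj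
    exact hdd _ _ (by omega) (by omega)
  have hcne : RatFunc.C c ≠ 0 := by
    rw [Ne, map_eq_zero]; exact hc
  have hG1' : (∏ᶠ g : (C.app (Net.gen (l0' ++ [ρ]) r)).flat.G, Φ.psi (Sum.inr g)) /
      (∏ᶠ g : (C.app (Net.gen (l0 ++ [ρ]) r)).flat.G,
        (twist C (l0 ++ [ρ]) (l0' ++ [ρ]) r ε).gap Φ g) =
      (∏ j ∈ Finset.range (l0.length - 1), pg C (l0' ++ [ρ]) r Φ j) /
      (∏ j ∈ Finset.range (l0.length - 1),
        dd C (l0 ++ [ρ]) (l0' ++ [ρ]) r Φ j (j + 1)) := by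
    have e := congrArg₂ (fun a b : RatFunc (C.app N').flat.F => a / b) hG1 hG2
    rw [mul_div_mul_right _ _ hyne] at e
    exact e
  rw [hG1'] at hst
  set X1 := ∏ j ∈ Finset.range (l0.length - 1), pg C (l0' ++ [ρ]) r Φ j with hX1
  set X2 := ∏ j ∈ Finset.range (l0.length - 1),
        dd C (l0 ++ [ρ]) (l0' ++ [ρ]) r Φ j (j + 1) with hX2
  have hAA : A = A / (P0 * RatFunc.C c) * (X1 / X2) * (P0 * RatFunc.C c * (X2 / X1)) := by
    field_simp
  rw [hAA]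
  have hfin := ord_mul hO hst (ord_mul hO (ord_mul hO hP0ord (ord_C hO c)) hγ)
  convert hfin using 1
  have hEE : (Net.gen (l0' ++ [ρ]) r).E = (l0' ++ [ρ]).toFinset := rfl
  rw [hEE]
  ring

end ABCT.H20
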