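import Pool.Agent.Helper20_ABCT.Edeg0

/-!
# EDEG: degree bounds (MP_a17fcb_ag, part E)
-/

open MvPolynomial

namespace ABCT.H20

open FlatCell

theorem edeg (hStar : EstarStmt) (hHom : EhomStmt) (hLink : ElinkStmt) (hEv : EvnzStmt)
    (hO : OrdStmt) (hCV : CtxVStmt) (hCOk : CtxOkStmt) (hCF : CtxFStmt) (hCB : CtxBStmt)
    (hCg : CgenStmt) (hVt : VtxGStmt) (hTw : TwcStmt) : EdegStmt := by
  classical
  intro C l r n δ N v J Rp k hV hJ hN hE hcf hD a ha
  have hgS : (Net.gen l r).Valid := valid_of_app C _ hV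
  obtain ⟨hnd, hr2, hrl⟩ := hgS
  obtain ⟨l0, ρ, rfl⟩ : ∃ (l0 : List ℕ) (ρ : ℕ), l = l0 ++ [ρ] := by
    have hne : l ≠ [] := by
      intro h
      rw [h] at hrl
      simp at hrl
    exact ⟨l.dropLast, l.getLast hne, (List.dropLast_append_getLast hne).symm⟩
  have hlen : (l0 ++ [ρ]).length = l0.length + 1 := by simp
  have hlen1 : (l0 ++ [ρ]).length - 1 = l0.length := by simp
  rw [hlen] at ha hrl
  rw [hlen1]
  have hnd0 : l0.Nodup := (List.nodup_append.mp hnd).1
  -- the label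
  set x := (l0 ++ [ρ]).getD a 0 with hx
  have hx' : x = l0[a] := by
    rw [hx, List.getD_append _ _ _ _ (by omega), List.getD_eq_getElem _ _ (by omega)]
  have hxm : x ∈ l0 := by rw [hx']; exact List.getElem_mem _
  have hix : l0.idxOf x = a := by
    rw [hx']; exact hnd0.idxOf_getElem a (by omega)
  set A0 := l0.erase x with hA0
  have hp : l0.Perm ([x] ++ A0 ++ []) := by
    rw [List.append_nil]
    exact List.perm_cons_erase hxm
  have hA0len : l0.length = A0.length + 1 := by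
    rw [hp.length_eq]; simp
  have hA0m : ∀ z, z ∈ A0 ↔ z ∈ l0 ∧ z ≠ x := by
    intro z
    rw [hA0, hnd0.mem_erase_iff, and_comm]
  -- the ranks
  obtain ⟨d, rfl⟩ : ∃ d, r = d + (1 + δ) := ⟨r - (1 + δ), by
    rcases hD with ⟨h, _⟩ | ⟨h, _, _⟩ <;> omega⟩
  obtain ⟨q, hq⟩ := fresh ([x] ++ A0 ++ [] ++ [ρ])
  rw [Dlt, hlen] at hD
  have hndT : ([x] ++ A0 ++ [] ++ [ρ]).Nodup := by
    have : (l0 ++ [ρ]).Perm ([x] ++ A0 ++ [] ++ [ρ]) := hp.append_right [ρ]
    exact this.nodup_iff.mp hnd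
  obtain ⟨SA, hSA⟩ := vtx_exists (A0 ++ [q]) (d + 1) (by
    have e : (A0 ++ [q]).length = A0.length + 1 := by simp
    rw [e]
    rcases hD with ⟨h, h1 | h1⟩ | ⟨h, h1, h2⟩
    · left; omega
    · right; omega
    · left; omega)
  obtain ⟨SB, hSB⟩ := vtx_exists ([x] ++ [q] ++ [] ++ [ρ]) (1 + δ) (by
    right
    refine ⟨by simp, ?_⟩
    rcases hD with ⟨h, _⟩ | ⟨h, _, _⟩ <;> omega)
  have hndA : (A0 ++ [q]).Nodup := by
    rw [List.nodup_append]
    refine ⟨hnd0.erase x, by simp, ?_⟩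
    intro u hu w hw huw
    rw [List.mem_singleton] at hw
    apply hq
    rw [← hw, ← huw]
    simp [hu]
  have hndB : ([x] ++ [q] ++ [] ++ [ρ]).Nodup := by
    have h1 : x ≠ ρ := by
      intro h
      have : ([x] ++ A0 ++ [] ++ [ρ]) = x :: (A0 ++ [ρ]) := by simp
      rw [this, List.nodup_cons] at hndT
      exact hndT.1 (by rw [h]; simp)
    have h2 : x ≠ q := by
      intro h
      apply hq
      rw [← h]; simp
    have h3 : q ≠ ρ := by
      intro h
      apply hq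
      rw [h]; simp
    simp [h1, h2, h3]
  obtain ⟨⟨gA, vA⟩, -, -, -, -⟩ := hVt _ _ SA hSA hndA
  obtain ⟨⟨gB, vB⟩, -, -, -, -⟩ := hVt _ _ SB hSB hndB
  have hlenT : ([x] ++ A0 ++ [] ++ [ρ]).length = l0.length + 1 := by
    simp only [List.length_append, List.length_cons, List.length_nil]; omega
  have hgT : (Net.gen ([x] ++ A0 ++ [] ++ [ρ]) (d + (1 + δ))).Valid := ⟨hndT, hr2, by
    rw [hlenT]; exact hrl⟩
  have hGF : GenFac [x] A0 [] ρ q d (1 + δ) SA SB gA gB := ⟨hgT, hq, hSA, hSB, vA, vB⟩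
  have hOk := hCg _ _ _ _ _ _ _ _ _ _ _ hGF
  have hfac : Net.Facet (Net.gen ([x] ++ A0 ++ [] ++ [ρ]) (d + (1 + δ))) (Net.tsum SA SB q) :=
    Net.Facet.gen [x] A0 [] ρ q d (1 + δ) SA SB hq hSA hSB
  have hVT := (hTw C l0 ([x] ++ A0 ++ []) ρ (d + (1 + δ)) hV hp).1
  obtain ⟨H', hH1, hH2, hH3, hcore⟩ := core hO hStar hLink hCV hCB hCOk hCF hTw C l0
    ([x] ++ A0 ++ []) ρ (d + (1 + δ)) n N v J Rp k hV hJ hE hcf hp
  obtain ⟨hHt, -, dH, hdH, hdHeq⟩ := hHom C (l0 ++ [ρ]) (d + (1 + δ)) n N v J Rp k hV hJ hN hcf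
  rw [hlen1] at hdHeq
  have hH'h := hH3 dH hdH
  have hH'0 : H' ≠ 0 := by
    intro h
    rw [h, map_zero] at hH1
    exact hHt hH1
  -- the values of the gaps
  set N' := Net.tsum SA SB q with hN'
  set φ := genFD [x] A0 [] ρ q d (1 + δ) SA SB gA gB with hφ
  set Φ := C.fd φ with hΦ
  have hgB0 : gB 0 = 1 := by
    rcases vB.2.2.2.2 with ⟨e, he⟩ | ⟨_, _, h⟩
    · exfalso
      have : IsEmpty SB.G := vtx_empty hSB (by simp)
      exact this.elim (e ⟨0, by simp⟩)
    · exact h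
  have hpg0 : pg C ([x] ++ A0 ++ [] ++ [ρ]) (d + (1 + δ)) Φ 0 = 1 := by
    have h := pg_genFD hCV C [x] A0 [] ρ q d (1 + δ) SA SB gA gB hVT 0 (by rw [hlenT]; omega)
    rw [if_pos (by simp)] at h
    rw [h, hgB0, vR_one, map_one]
  let yy : ℕ → (C.app N').flat.F := fun j =>
    if j + 1 < l0.length - 1 then vL C SA SB q (gA j) else 0
  have hpgs : ∀ j, pg C ([x] ++ A0 ++ [] ++ [ρ]) (d + (1 + δ)) Φ (j + 1) =
      sVar (C.app N').flat.F * RatFunc.C (yy j) := by
    intro j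
    by_cases hj : j + 1 < l0.length - 1
    · have h := pg_genFD hCV C [x] A0 [] ρ q d (1 + δ) SA SB gA gB hVT (j + 1)
        (by rw [hlenT]; omega)
      rw [if_neg (by simp), if_pos (by simp; omega)] at h
      rw [h]
      show _ = sVar (C.app N').flat.F *
        RatFunc.C (if j + 1 < l0.length - 1 then vL C SA SB q (gA j) else 0)
      rw [if_pos hj]
      rfl
    · rw [pg_out C _ _ _ _ (by rw [hlenT]; omega)]
      show _ = sVar (C.app N').flat.F *
        RatFunc.C (if j + 1 < l0.length - 1 then vL C SA SB q (gA j) else 0)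
      rw [if_neg hj, map_zero, mul_zero]
  have hs1 : OrdGe (sVar (C.app N').flat.F) 1 := by
    have := ord_s hO (K := (C.app N').flat.F) 1
    rwa [zpow_one] at this
  have hpgord1 : ∀ j, OrdGe (pg C ([x] ++ A0 ++ [] ++ [ρ]) (d + (1 + δ)) Φ (j + 1)) 1 := by
    intro j
    rw [hpgs]
    exact ord_mul hO hs1 (ord_C hO (yy j))
  have hpgord : ∀ h, OrdGe (pg C ([x] ++ A0 ++ [] ++ [ρ]) (d + (1 + δ)) Φ h) 0 := by
    intro h
    cases h with
    | zero =>
      rw [hpg0]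
      exact ord_one hO
    | succ j => exact ord_mono hO (by omega) (hpgord1 j)
  have hdd0 : ∀ a' b', OrdGe (dd C (l0 ++ [ρ]) ([x] ++ A0 ++ [] ++ [ρ]) (d + (1 + δ)) Φ a' b') 0 :=
    fun a' b' => tt_ord hO C _ _ Φ hpgord _ _
  -- positions not containing `a`
  have hidx : ∀ z, z ≠ x → 1 ≤ ([x] ++ A0 ++ [] ++ [ρ]).idxOf z := by
    intro z hz
    show 1 ≤ (x :: (A0 ++ [] ++ [ρ])).idxOf z
    rw [List.idxOf_cons_ne _ (Ne.symm hz)]
    omega
  have htt1 : ∀ z z', z ≠ x → z' ≠ x → OrdGe (tt C ([x] ++ A0 ++ [] ++ [ρ]) (d + (1 + δ)) Φ z' -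
      tt C ([x] ++ A0 ++ [] ++ [ρ]) (d + (1 + δ)) Φ z) 1 := by
    have key : ∀ z z', z ≠ x → z' ≠ x →
        ([x] ++ A0 ++ [] ++ [ρ]).idxOf z ≤ ([x] ++ A0 ++ [] ++ [ρ]).idxOf z' →
        OrdGe (tt C ([x] ++ A0 ++ [] ++ [ρ]) (d + (1 + δ)) Φ z' -
          tt C ([x] ++ A0 ++ [] ++ [ρ]) (d + (1 + δ)) Φ z) 1 := by
      intro z z' hz hz' hle
      rw [tt_sub C _ _ Φ hle]
      apply ord_sum hO
      intro j hj
      rw [Finset.mem_Ico] at hj
      have := hidx z hz
      obtain ⟨j', rfl⟩ : ∃ j', j = j' + 1 := ⟨j - 1, by omega⟩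
      exact hpgord1 j'
    intro z z' hz hz'
    rcases le_total (([x] ++ A0 ++ [] ++ [ρ]).idxOf z) (([x] ++ A0 ++ [] ++ [ρ]).idxOf z')
      with h | h
    · exact key z z' hz hz' h
    · have h1 := ord_mul hO (ord_C hO (-1 : (C.app N').flat.F)) (key z' z hz' hz h)
      rwa [map_neg, map_one, neg_one_mul, neg_sub, zero_add] at h1
  have hgetne : ∀ b, b < l0.length → b ≠ a → (l0 ++ [ρ]).getD b 0 ≠ x := by
    intro b hb hba h
    rw [hx, List.getD_append _ _ _ _ hb, List.getD_append _ _ _ _ (by omega),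
      List.getD_eq_getElem _ _ hb, List.getD_eq_getElem _ _ (by omega)] at h
    exact hba ((List.Nodup.getElem_inj_iff hnd0).mp h)
  have hw : ∀ a' b', a' < b' → b' < l0.length →
      OrdGe (dd C (l0 ++ [ρ]) ([x] ++ A0 ++ [] ++ [ρ]) (d + (1 + δ)) Φ a' b')
        (if a' = a ∨ b' = a then 0 else 1) := by
    intro a' b' hab' hb'
    by_cases h : a' = a ∨ b' = a
    · rw [if_pos h]
      exact hdd0 _ _
    · rw [if_neg h]
      push Not at h
      exact htt1 _ _ (hgetne a' (by omega) h.1) (hgetne b' hb' h.2)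
  have hγ : OrdGe ((∏ j ∈ Finset.range (l0.length - 1),
      dd C (l0 ++ [ρ]) ([x] ++ A0 ++ [] ++ [ρ]) (d + (1 + δ)) Φ j (j + 1)) /
      ∏ j ∈ Finset.range (l0.length - 1),
        pg C ([x] ++ A0 ++ [] ++ [ρ]) (d + (1 + δ)) Φ j) (if a = 0 then 0 else -1) := by
    obtain ⟨t, ht⟩ : ∃ t, l0.length - 1 = t + 1 := ⟨l0.length - 2, by omega⟩
    have h1 : (∏ j ∈ Finset.range (l0.length - 1),
        pg C ([x] ++ A0 ++ [] ++ [ρ]) (d + (1 + δ)) Φ j) =
        sVar (C.app N').flat.F ^ t * RatFunc.C (∏ j ∈ Finset.range t, yy j) := by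
      rw [ht, Finset.prod_range_succ', hpg0, mul_one, map_prod,
        Finset.prod_congr rfl fun j _ => hpgs j, Finset.prod_mul_distrib, Finset.prod_const,
        Finset.card_range]
    have h2 : OrdGe (∏ j ∈ Finset.range (l0.length - 1),
        dd C (l0 ++ [ρ]) ([x] ++ A0 ++ [] ++ [ρ]) (d + (1 + δ)) Φ j (j + 1))
        (∑ j ∈ Finset.range (l0.length - 1), (if j = a ∨ j + 1 = a then (0 : ℤ) else 1)) := by
      refine ord_prod hO (Finset.range (l0.length - 1)) (fun j =>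
        dd C (l0 ++ [ρ]) ([x] ++ A0 ++ [] ++ [ρ]) (d + (1 + δ)) Φ j (j + 1))
        (fun j => if j = a ∨ j + 1 = a then (0 : ℤ) else 1) ?_
      intro j hj
      rw [Finset.mem_range] at hj
      exact hw j (j + 1) (by omega) (by omega)
    have h3 := ord_mul hO h2 (ord_mul hO (ord_s hO (K := (C.app N').flat.F) (-(t : ℤ)))
      (ord_C hO (∏ j ∈ Finset.range t, yy j)⁻¹))
    rw [h1, div_eq_mul_inv, mul_inv, ← map_inv₀]
    rw [zpow_neg, zpow_natCast] at h3
    refine ord_mono hO ?_ h3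
    have h4 := count_gaps (l0.length - 1) a
    rw [ht] at h4 ⊢
    push_cast at h4 ⊢
    split_ifs at h4 ⊢ <;> omega
  have hfin := hcore N' φ hfac hOk _ _ hw hγ
  have hle := deg_le hO (liftF (C.vo N')) yy _ hpg0 hpgs H' hH'0 dH hH'h (by
    intro e he
    refine kap_ne hEv C N' (l0.length - 2) (fun j => rename (Sum.inl : SA.G → N'.G) (gA j)) ?_ H'
      dH hH'h ?_ yy ?_ e he
    · have e3 : (A0 ++ [q]).length - 2 = l0.length - 2 := by
        simp only [List.length_append, List.length_cons, List.length_nil]; omega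
      rcases vA.2.2.2.2 with ⟨f, hf⟩ | ⟨h1, _, h⟩
      · left
        refine ⟨⟨fun h => Sum.inl (f (Fin.cast e3.symm h)), ?_⟩, ?_⟩
        · intro u w huw
          have := f.injective (Sum.inl_injective huw)
          exact Fin.cast_injective _ this
        · intro h
          have := hf (Fin.cast e3.symm h)
          show rename Sum.inl (gA h.1) = _
          rw [show gA h.1 = gA (Fin.cast e3.symm h).1 from rfl, this, rename_X]
          rfl
      · right
        refine ⟨?_, ?_⟩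
        · omega
        · show rename Sum.inl (gA 0) = 1
          rw [h, map_one]
    · intro j hj
      exact hH2 (j + 1) (by omega)
    · intro j hj
      show (if j + 1 < l0.length - 1 then vL C SA SB q (gA j) else 0) = _
      rw [if_pos (by omega), vL_eq]) _ hfin
  -- degree of the substitution
  have hdeg : degreeOf a (Ht C (l0 ++ [ρ]) (d + (1 + δ))
      (cf (C.app (Net.gen (l0 ++ [ρ]) (d + (1 + δ)))).flat N v)) ≤ (Psi H').natDegree := by
    have hgA : ∀ j, j < A0.length → l0.idxOf (([x] ++ A0 ++ []).getD (j + 1) 0) ≠ a := by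
      intro j hj h
      have e1 : ([x] ++ A0 ++ []).getD (j + 1) 0 = A0[j] := by
        rw [List.append_nil]
        show (x :: A0).getD (j + 1) 0 = _
        rw [List.getD_cons_succ, List.getD_eq_getElem _ _ hj]
      rw [e1] at h
      have hm : A0[j] ∈ A0 := List.getElem_mem _
      obtain ⟨h3, h4⟩ := (hA0m _).mp hm
      rw [← hix] at h
      exact h4 ((List.idxOf_inj h3).mp h)
    rw [hH1]
    refine degreeOf_aeval_le a (l0.length - 2) _ ?_ ?_ H' (fun j hj => hH2 (j + 1) (by omega))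
    · refine (degreeOf_sub_le _ _ _).trans (max_le ?_ ?_)
      · rw [degreeOf_X]; split_ifs <;> omega
      · rw [degreeOf_X]; split_ifs <;> omega
    · intro i hi
      apply Nat.le_zero.mp
      refine (degreeOf_sub_le _ _ _).trans (max_le ?_ ?_)
      · rw [degreeOf_X, if_neg (Ne.symm (hgA (i + 1) (by omega)))]
      · rw [degreeOf_X, if_neg (Ne.symm (hgA i (by omega)))]
  -- the sums
  have e7 : ∑ x' ∈ ([x] ++ A0 ++ [] ++ [ρ]).toFinset, φ.lam (Sum.inl x') *
      (∑ i ∈ C.blk x', ww (C.app (Net.gen (l0 ++ [ρ]) (d + (1 + δ)))).flat n v i) =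
      -(d : ℤ) * ((∑ b ∈ Finset.range l0.length, WW C (l0 ++ [ρ]) (d + (1 + δ)) n v b) -
        WW C (l0 ++ [ρ]) (d + (1 + δ)) n v a) := by
    have f1 : ∀ x' ∈ ([x] ++ A0 ++ [] ++ [ρ]).toFinset, φ.lam (Sum.inl x') *
        (∑ i ∈ C.blk x', ww (C.app (Net.gen (l0 ++ [ρ]) (d + (1 + δ)))).flat n v i) =
        if x' ∈ A0 then -(d : ℤ) *
        (∑ i ∈ C.blk x', ww (C.app (Net.gen (l0 ++ [ρ]) (d + (1 + δ)))).flat n v i) else 0 := by
      intro x' _
      rw [hφ, lam_genFD]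
      split_ifs <;> simp
    rw [Finset.sum_congr rfl f1, ← Finset.sum_filter, ← Finset.mul_sum]
    congr 1
    have f2 : (([x] ++ A0 ++ [] ++ [ρ]).toFinset.filter fun x' => x' ∈ A0) =
        l0.toFinset.erase x := by
      ext z
      rw [Finset.mem_filter, Finset.mem_erase, List.mem_toFinset, List.mem_toFinset, hA0m]
      constructor
      · rintro ⟨_, h1, h2⟩
        exact ⟨h2, h1⟩
      · rintro ⟨h1, h2⟩
        refine ⟨?_, h2, h1⟩
        rw [List.append_assoc, List.append_assoc]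
        exact List.mem_append_right _ (List.mem_append_left _ ((hA0m z).mpr ⟨h2, h1⟩))
    rw [f2, Finset.sum_erase_eq_sub (List.mem_toFinset.mpr hxm), sum_labels l0 ρ hnd0]
    rfl
  have e8 : ∑ b ∈ Finset.range l0.length, ∑ a' ∈ Finset.range b,
      (if a' = a ∨ b = a then (0 : ℤ) else 1) * kk C (l0 ++ [ρ]) (d + (1 + δ)) n J a' b =
      ∑ b ∈ Finset.range l0.length, ∑ a' ∈ Finset.range b,
        (kk C (l0 ++ [ρ]) (d + (1 + δ)) n J a' b : ℤ) -
      ∑ b ∈ (Finset.range l0.length).erase a,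
        (kk C (l0 ++ [ρ]) (d + (1 + δ)) n J a b : ℤ) := by
    rw [← sum_pairs_mem l0.length a (by omega)
      (fun a' b => (kk C (l0 ++ [ρ]) (d + (1 + δ)) n J a' b : ℤ))
      (fun a' b => by rw [kk_symm]), ← Finset.sum_sub_distrib]
    apply Finset.sum_congr rfl
    intro b _
    rw [← Finset.sum_sub_distrib]
    apply Finset.sum_congr rfl
    intro a' _
    split_ifs <;> ring
  rw [e7, e8] at hle
  have hdeg' : (degreeOf a (Ht C (l0 ++ [ρ]) (d + (1 + δ))
      (cf (C.app (Net.gen (l0 ++ [ρ]) (d + (1 + δ)))).flat N v)) : ℤ) ≤ (Psi H').natDegree := by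
    exact_mod_cast hdeg
  rw [Xb, hlen1]
  push_cast at hdHeq ⊢
  rcases hD with ⟨hδ, _⟩ | ⟨hδ, _, _⟩
  · subst hδ
    rw [if_pos rfl]
    push_cast at hdHeq ⊢
    split_ifs at hle ⊢ <;> linarith
  · subst hδ
    rw [if_neg one_ne_zero]
    push_cast at hdHeq ⊢
    split_ifs at hle ⊢ <;> linarith

end ABCT.H20
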