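import Pool.Agent.Helper20_ABCT.Epair

/-!
# Tools for EDEG (MP_a17fcb_ag, part E)
-/

open MvPolynomial

namespace ABCT.H20

open FlatCell

/-- degree of a substitution -/
theorem degreeOf_aeval_zero {R : Type*} [CommRing R] (a K : ℕ) (g : ℕ → MvPolynomial ℕ R)
    (hg : ∀ i, i < K → degreeOf a (g i) = 0) (P : MvPolynomial ℕ R)
    (hP : ∀ j, K ≤ j → degreeOf j P = 0) : degreeOf a (aeval g P) = 0 := by
  rw [aeval_def, eval₂_eq]
  apply Nat.le_zero.mp
  refine (degreeOf_sum_le _ _ _).trans (Finset.sup_le ?_)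
  intro m hm
  refine (degreeOf_C_mul_le _ _ _).trans ((degreeOf_prod_le _ _ _).trans ?_)
  apply Nat.le_zero.mpr
  apply Finset.sum_eq_zero
  intro i hi
  have hiK : i < K := by
    by_contra h
    have := (degreeOf_zero_iff _ _).mp (hP i (by omega)) m (mem_support_iff.mp hm)
    exact (Finsupp.mem_support_iff.mp hi) this
  apply Nat.le_zero.mp
  refine (degreeOf_pow_le _ _ _).trans ?_
  rw [hg i hiK, Nat.mul_zero]

theorem degreeOf_aeval_le {R : Type*} [CommRing R] (a K : ℕ) (g : ℕ → MvPolynomial ℕ R)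
    (hg0 : degreeOf a (g 0) ≤ 1) (hg : ∀ i, i < K → degreeOf a (g (i + 1)) = 0)
    (H : MvPolynomial ℕ R) (hH : ∀ j, K ≤ j → degreeOf (j + 1) H = 0) :
    degreeOf a (aeval g H) ≤ (Psi H).natDegree := by
  conv_lhs => rw [← Tht_Psi H, Tht_eq_sum (Psi H) _ (Nat.lt_succ_self _)]
  rw [map_sum]
  refine (degreeOf_sum_le _ _ _).trans (Finset.sup_le ?_)
  intro e he
  rw [Finset.mem_range] at he
  rw [map_mul, map_pow, aeval_X, aeval_rename]
  refine (degreeOf_mul_le _ _ _).trans ?_
  rw [degreeOf_aeval_zero a K (g ∘ Nat.succ) (fun i hi => hg i hi) _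
    (fun j hj => Psi_coeff_degreeOf (hH j hj) e), Nat.zero_add]
  refine (degreeOf_pow_le _ _ _).trans ?_
  calc e * degreeOf a (g 0) ≤ e * 1 := Nat.mul_le_mul_left _ hg0
    _ ≤ _ := by omega

/-- sums over pairs containing `a` -/
theorem sum_pairs_mem (M a : ℕ) (ha : a < M) (F : ℕ → ℕ → ℤ) (hF : ∀ a b, F a b = F b a) :
    ∑ b ∈ Finset.range M, ∑ a' ∈ Finset.range b, (if a' = a ∨ b = a then F a' b else 0) =
      ∑ b ∈ (Finset.range M).erase a, F a b := by
  classical
  have h1 : ∀ b ∈ Finset.range M, ∑ a' ∈ Finset.range b, (if a' = a ∨ b = a then F a' b else 0) =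
      (if b = a then ∑ a' ∈ Finset.range a, F a a' else 0) + (if a < b then F a b else 0) := by
    intro b _
    by_cases h : b = a
    · subst h
      rw [if_pos rfl, if_neg (lt_irrefl _), add_zero]
      apply Finset.sum_congr rfl
      intro a' _
      rw [if_pos (Or.inr rfl), hF]
    · rw [if_neg h, zero_add]
      have : ∀ a' ∈ Finset.range b, (if a' = a ∨ b = a then F a' b else 0) =
          if a' = a then F a b else 0 := by
        intro a' _
        by_cases h' : a' = a
        · rw [if_pos (Or.inl h'), if_pos h', h']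
        · rw [if_neg (by tauto), if_neg h']
      rw [Finset.sum_congr rfl this, Finset.sum_ite_eq']
      simp only [Finset.mem_range]
  have h2 : ∑ b ∈ (Finset.range M).erase a, F a b =
      ∑ b ∈ Finset.range a, F a b + ∑ b ∈ Finset.range M, (if a < b then F a b else 0) := by
    have e1 : ∑ b ∈ (Finset.range M).erase a, F a b =
        ∑ b ∈ (Finset.range M).erase a, ((if b < a then F a b else 0) +
          (if a < b then F a b else 0)) := by
      apply Finset.sum_congr rfl
      intro b hb
      have hne := Finset.ne_of_mem_erase hb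
      rcases lt_or_gt_of_ne hne with h | h
      · rw [if_pos h, if_neg (by omega), add_zero]
      · rw [if_neg (by omega), if_pos h, zero_add]
    rw [e1, Finset.sum_add_distrib]
    congr 1
    · rw [← Finset.sum_filter]
      apply Finset.sum_congr _ (fun _ _ => rfl)
      ext b
      rw [Finset.mem_filter, Finset.mem_erase, Finset.mem_range, Finset.mem_range]
      omega
    · rw [← Finset.sum_erase_add _ _ (Finset.mem_range.mpr ha), if_neg (lt_irrefl _), add_zero]
  rw [Finset.sum_congr rfl h1, Finset.sum_add_distrib, Finset.sum_ite_eq',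
    if_pos (Finset.mem_range.mpr ha), h2]

theorem sum_labels (l0 : List ℕ) (ρ : ℕ) (hnd : l0.Nodup) (W : ℕ → ℤ) :
    ∑ x ∈ l0.toFinset, W x = ∑ b ∈ Finset.range l0.length, W ((l0 ++ [ρ]).getD b 0) := by
  symm
  apply Finset.sum_nbij (fun b => (l0 ++ [ρ]).getD b 0)
  · intro b hb
    rw [Finset.mem_range] at hb
    exact List.mem_toFinset.mpr (getD_mem hb)
  · intro a ha b hb hab
    rw [Finset.coe_range, Set.mem_Iio] at ha hb
    change (l0 ++ [ρ]).getD a 0 = (l0 ++ [ρ]).getD b 0 at hab
    rw [List.getD_append _ _ _ _ ha, List.getD_append _ _ _ _ hb,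
      List.getD_eq_getElem _ _ ha, List.getD_eq_getElem _ _ hb] at hab
    exact (List.Nodup.getElem_inj_iff hnd).mp hab
  · intro x hx
    rw [Finset.mem_coe, List.mem_toFinset] at hx
    refine ⟨l0.idxOf x, ?_, ?_⟩
    · rw [Finset.coe_range, Set.mem_Iio]
      exact List.idxOf_lt_length_of_mem hx
    · show (l0 ++ [ρ]).getD (l0.idxOf x) 0 = x
      rw [List.getD_append _ _ _ _ (List.idxOf_lt_length_of_mem hx),
        List.getD_eq_getElem _ _ (List.idxOf_lt_length_of_mem hx)]
      exact List.getElem_idxOf _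
  · intro b _; rfl

theorem kk_symm (C : Ctx) (l : List ℕ) (r n : ℕ) (J : Finset ℕ → Finset ℕ) (a b : ℕ) :
    kk C l r n J a b = kk C l r n J b a := by
  rw [kk, kk]
  congr 2
  apply Finset.filter_congr
  intro I _
  exact and_comm

/-- the number of neighbouring pairs without `a` -/
theorem count_gaps (t a : ℕ) : (t : ℤ) - (if a = 0 then 1 else 2) ≤
    ∑ j ∈ Finset.range t, (if j = a ∨ j + 1 = a then (0 : ℤ) else 1) := by
  classical
  have h1 : ∀ j ∈ Finset.range t, (1 : ℤ) - (if j = a then 1 else 0) -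
      (if j + 1 = a then 1 else 0) ≤ (if j = a ∨ j + 1 = a then (0 : ℤ) else 1) := by
    intro j _
    split_ifs <;> omega
  refine le_trans ?_ (Finset.sum_le_sum h1)
  rw [Finset.sum_sub_distrib, Finset.sum_sub_distrib, Finset.sum_const, Finset.card_range,
    nsmul_eq_mul, mul_one, Finset.sum_ite_eq']
  have h2 : ∑ j ∈ Finset.range t, (if j + 1 = a then (1 : ℤ) else 0) ≤ if a = 0 then 0 else 1 := by
    by_cases ha : a = 0
    · subst ha
      rw [if_pos rfl]
      apply le_of_eq
      apply Finset.sum_eq_zero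
      intro j _
      rw [if_neg (by omega)]
    · rw [if_neg ha]
      obtain ⟨a', rfl⟩ := Nat.exists_eq_succ_of_ne_zero ha
      have : ∀ j ∈ Finset.range t, (if j + 1 = a'.succ then (1 : ℤ) else 0) =
          if j = a' then 1 else 0 := by
        intro j _
        by_cases h : j = a'
        · rw [if_pos h, if_pos (by omega)]
        · rw [if_neg h, if_neg (by omega)]
      rw [Finset.sum_congr rfl this, Finset.sum_ite_eq']
      split_ifs <;> omega
  by_cases ha : a = 0
  · rw [if_pos ha] at h2 ⊢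
    split_ifs <;> omega
  · rw [if_neg ha] at h2 ⊢
    split_ifs <;> omega

end ABCT.H20
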