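import Pool.Agent.Helper20_ABCT.Vals

/-!
# EPAIR: divisibility by powers of the differences (MP_a17fcb_ag, part E)
-/

open MvPolynomial

namespace ABCT.H20

open FlatCell

/-- EVNZ for the coefficients of a separated polynomial -/
theorem kap_ne (hEv : EvnzStmt) (C : Ctx) (N' : Net) (K : ℕ) (g : ℕ → MvPolynomial N'.G ℕ)
    (hg : (∃ e : Fin K ↪ N'.G, ∀ h : Fin K, g h = X (e h)) ∨ (K = 1 ∧ g 0 = 1))
    (H : MvPolynomial ℕ (Fr C.R)) (D : ℕ) (hD : H.IsHomogeneous D)
    (hdeg : ∀ j, K ≤ j → degreeOf (j + 1) H = 0) (y : ℕ → (C.app N').flat.F)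
    (hy : ∀ j, j < K → y j = eval₂ (Nat.castRingHom (C.app N').flat.F)
      (fun h => xx (Sum.inr (C.gi N' h))) (g j)) (e : ℕ) (he : (Psi H).coeff e ≠ 0) :
    kap (liftF (C.vo N')) y ((Psi H).coeff e) ≠ 0 := by
  have heD : e ≤ D := by
    by_contra h
    exact he (Psi_coeff_zero hD e (by omega))
  have hdg : ∀ j, K ≤ j → degreeOf j ((Psi H).coeff e) = 0 := fun j hj =>
    Psi_coeff_degreeOf (hdeg j hj) e
  have h1 := hEv C N' K g (D - e) ((Psi H).coeff e) hg (Psi_coeff_homog hD e heD) he hdg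
  have h2 : kap (liftF (C.vo N')) y ((Psi H).coeff e) =
      eval₂ (liftF (C.vo N')) (fun j => eval₂ (Nat.castRingHom (C.app N').flat.F)
        (fun h => xx (Sum.inr (C.gi N' h))) (g j)) ((Psi H).coeff e) := by
    rw [kap, coe_eval₂Hom]
    apply eval₂_congr
    intro i c hi hc
    apply hy
    by_contra hK
    have := (degreeOf_zero_iff _ _).mp (hdg i (by omega)) c hc
    exact (Finsupp.mem_support_iff.mp hi) this
  rw [h2]
  exact h1

theorem fresh (l : List ℕ) : ∃ q, q ∉ l := by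
  obtain ⟨q, hq⟩ := Infinite.exists_notMem_finset l.toFinset
  exact ⟨q, fun h => hq (List.mem_toFinset.mpr h)⟩

/-- one-vertex nets exist -/
theorem vtx_exists (l : List ℕ) (r : ℕ)
    (h : (2 ≤ r ∧ r + 2 ≤ l.length) ∨ (l.length = 3 ∧ (r = 1 ∨ r = 2))) :
    ∃ S, Net.IsVtx l r S := by
  rcases h with ⟨h1, h2⟩ | ⟨h1, h2 | h2⟩
  · exact ⟨_, Net.IsVtx.gen l r h1 h2⟩
  · subst h2
    exact ⟨_, Net.IsVtx.black l h1⟩
  · subst h2
    exact ⟨_, Net.IsVtx.white l h1⟩

theorem vtx_empty {l : List ℕ} {r : ℕ} {S : Net} (h : Net.IsVtx l r S) (hl : l.length = 3) :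
    IsEmpty S.G := by
  cases h with
  | gen h1 h2 => exact absurd h2 (by omega)
  | black h => exact inferInstanceAs (IsEmpty Empty)
  | white h => exact inferInstanceAs (IsEmpty Empty)

theorem sum_ite_pair {s : Finset ℕ} {x y : ℕ} (hx : x ∈ s) (hy : y ∈ s) (hxy : x ≠ y) (c : ℤ)
    (f : ℕ → ℤ) : ∑ i ∈ s, (if i ∈ [x, y] then c else 0) * f i = c * (f x + f y) := by
  classical
  have h1 : ∀ i ∈ s, (if i ∈ [x, y] then c else 0) * f i =
      (if i = x then c * f i else 0) + (if i = y then c * f i else 0) := by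
    intro i _
    by_cases h : i = x
    · have h' : i ≠ y := fun e => hxy (h.symm.trans e)
      rw [if_pos (by rw [h]; simp), if_pos h, if_neg h', add_zero]
    · by_cases h' : i = y
      · rw [if_pos (by rw [h']; simp), if_neg h, if_pos h', zero_add]
      · rw [if_neg (by simp [h, h']), if_neg h, if_neg h', zero_mul, add_zero]
  rw [Finset.sum_congr rfl h1, Finset.sum_add_distrib, Finset.sum_ite_eq', Finset.sum_ite_eq',
    if_pos hx, if_pos hy]
  ring

theorem epair (hStar : EstarStmt) (hHom : EhomStmt) (hLink : ElinkStmt) (hEv : EvnzStmt)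
    (hO : OrdStmt) (hCV : CtxVStmt) (hCOk : CtxOkStmt) (hCF : CtxFStmt) (hCB : CtxBStmt)
    (hCg : CgenStmt) (hVt : VtxGStmt) (hTw : TwcStmt) : EpairStmt := by
  classical
  intro C l r n δ N v J Rp k hV hJ hN hE hcf hD a b hab hb
  have hgS : (Net.gen l r).Valid := valid_of_app C _ hV
  obtain ⟨hnd, hr2, hrl⟩ := hgS
  obtain ⟨l0, ρ, rfl⟩ : ∃ (l0 : List ℕ) (ρ : ℕ), l = l0 ++ [ρ] := by
    have hne : l ≠ [] := by
      intro h
      rw [h] at hrl
      simp at hrl
    exact ⟨l.dropLast, l.getLast hne, (List.dropLast_append_getLast hne).symm⟩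
  have hlen : (l0 ++ [ρ]).length = l0.length + 1 := by simp
  rw [hlen] at hb hrl
  have hnd0 : l0.Nodup := (List.nodup_append.mp hnd).1
  -- the labels
  set x := (l0 ++ [ρ]).getD a 0 with hx
  set y := (l0 ++ [ρ]).getD b 0 with hy
  have hx' : x = l0[a] := by
    rw [hx, List.getD_append _ _ _ _ (by omega), List.getD_eq_getElem _ _ (by omega)]
  have hy' : y = l0[b] := by
    rw [hy, List.getD_append _ _ _ _ (by omega), List.getD_eq_getElem _ _ (by omega)]
  have hxm : x ∈ l0 := by rw [hx']; exact List.getElem_mem _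
  have hym : y ∈ l0 := by rw [hy']; exact List.getElem_mem _
  have hxy : x ≠ y := by
    rw [hx', hy']
    intro h
    have := (List.Nodup.getElem_inj_iff hnd0).mp h
    omega
  have hix : l0.idxOf x = a := by
    rw [hx']; exact hnd0.idxOf_getElem a (by omega)
  have hiy : l0.idxOf y = b := by
    rw [hy']; exact hnd0.idxOf_getElem b (by omega)
  set R0 := (l0.erase x).erase y with hR0
  have hp : l0.Perm ([] ++ [x, y] ++ R0) := by
    have h1 : l0.Perm (x :: l0.erase x) := List.perm_cons_erase hxm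
    have h2 : (l0.erase x).Perm (y :: R0) :=
      List.perm_cons_erase ((List.mem_erase_of_ne hxy.symm).mpr hym)
    exact h1.trans (h2.cons x)
  have hR0len : l0.length = R0.length + 2 := by
    rw [hp.length_eq]; simp
  -- the ranks
  obtain ⟨r', rfl⟩ : ∃ r', r = δ + r' := ⟨r - δ, by
    rcases hD with ⟨h, _⟩ | ⟨h, _, _⟩ <;> omega⟩
  obtain ⟨q, hq⟩ := fresh ([] ++ [x, y] ++ R0 ++ [ρ])
  rw [Dlt, hlen] at hD
  have hndT : ([] ++ [x, y] ++ R0 ++ [ρ]).Nodup := by
    have : (l0 ++ [ρ]).Perm ([] ++ [x, y] ++ R0 ++ [ρ]) := hp.append_right [ρ]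
    exact this.nodup_iff.mp hnd
  obtain ⟨SA, hSA⟩ := vtx_exists ([x, y] ++ [q]) (δ + 1) (by
    right
    refine ⟨by simp, ?_⟩
    rcases hD with ⟨h, _⟩ | ⟨h, _, _⟩ <;> omega)
  obtain ⟨SB, hSB⟩ := vtx_exists ([] ++ [q] ++ R0 ++ [ρ]) r' (by
    have e : ([] ++ [q] ++ R0 ++ [ρ]).length = R0.length + 2 := by simp
    rw [e]
    rcases hD with ⟨h, h1 | h1⟩ | ⟨h, h1, h2⟩
    · left; omega
    · right; omega
    · left; omega)
  have hndA : ([x, y] ++ [q]).Nodup := by
    rw [List.mem_append, List.mem_append, not_or, not_or] at hq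
    have hqA := hq.1.1
    rw [List.nodup_append]
    refine ⟨by simp [hxy], by simp, ?_⟩
    intro u hu w hw huw
    rw [List.mem_singleton] at hw
    apply hqA
    rw [← hw, ← huw]
    exact hu
  have hndB : ([] ++ [q] ++ R0 ++ [ρ]).Nodup := by
    have h1 : (R0 ++ [ρ]).Nodup := by
      have : ([] ++ [x, y] ++ R0 ++ [ρ]) = [x, y] ++ (R0 ++ [ρ]) := by simp
      rw [this] at hndT
      exact (List.nodup_append.mp hndT).2.1
    have h2 : ([] ++ [q] ++ R0 ++ [ρ]) = q :: (R0 ++ [ρ]) := by simp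
    rw [h2, List.nodup_cons]
    refine ⟨?_, h1⟩
    intro h
    apply hq
    have : ([] ++ [x, y] ++ R0 ++ [ρ]) = [x, y] ++ (R0 ++ [ρ]) := by simp
    rw [this]
    exact List.mem_append_right _ h
  obtain ⟨⟨gA, vA⟩, -, -, -, -⟩ := hVt _ _ SA hSA hndA
  obtain ⟨⟨gB, vB⟩, -, -, -, -⟩ := hVt _ _ SB hSB hndB
  have hlenT : ([] ++ [x, y] ++ R0 ++ [ρ]).length = l0.length + 1 := by
    simp only [List.length_append, List.length_cons, List.length_nil]; omega
  have hgT : (Net.gen ([] ++ [x, y] ++ R0 ++ [ρ]) (δ + r')).Valid := ⟨hndT, hr2, by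
    rw [hlenT]; exact hrl⟩
  have hGF : GenFac [] [x, y] R0 ρ q δ r' SA SB gA gB := ⟨hgT, hq, hSA, hSB, vA, vB⟩
  have hOk := hCg _ _ _ _ _ _ _ _ _ _ _ hGF
  have hfac : Net.Facet (Net.gen ([] ++ [x, y] ++ R0 ++ [ρ]) (δ + r')) (Net.tsum SA SB q) :=
    Net.Facet.gen [] [x, y] R0 ρ q δ r' SA SB hq hSA hSB
  have hVT := (hTw C l0 ([] ++ [x, y] ++ R0) ρ (δ + r') hV hp).1
  obtain ⟨H', hH1, hH2, hH3, hcore⟩ := core hO hStar hLink hCV hCB hCOk hCF hTw C l0
    ([] ++ [x, y] ++ R0) ρ (δ + r') n N v J Rp k hV hJ hE hcf hp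
  obtain ⟨hHt, -, dH, hdH, -⟩ := hHom C (l0 ++ [ρ]) (δ + r') n N v J Rp k hV hJ hN hcf
  have hH'h := hH3 dH hdH
  have hH'0 : H' ≠ 0 := by
    intro h
    rw [h, map_zero] at hH1
    exact hHt hH1
  -- the values of the gaps
  set N' := Net.tsum SA SB q with hN'
  set φ := genFD [] [x, y] R0 ρ q δ r' SA SB gA gB with hφ
  set Φ := C.fd φ with hΦ
  have hgA0 : gA 0 = 1 := by
    rcases vA.2.2.2.2 with ⟨e, he⟩ | ⟨_, _, h⟩
    · exfalso
      have : IsEmpty SA.G := vtx_empty hSA (by simp)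
      exact this.elim (e ⟨0, by simp⟩)
    · exact h
  have hpg0 : pg C ([] ++ [x, y] ++ R0 ++ [ρ]) (δ + r') Φ 0 = sVar (C.app N').flat.F := by
    have h := pg_genFD hCV C [] [x, y] R0 ρ q δ r' SA SB gA gB hVT 0 (by rw [hlenT]; omega)
    rw [if_neg (by simp), if_pos (by simp)] at h
    rw [h, List.length_nil, Nat.sub_zero, hgA0, vL_one, map_one, mul_one]
  let yy : ℕ → (C.app N').flat.F := fun j =>
    if j + 1 < l0.length - 1 then vR C SA SB q (gB j) else 0
  have hpgs : ∀ j, pg C ([] ++ [x, y] ++ R0 ++ [ρ]) (δ + r') Φ (j + 1) = RatFunc.C (yy j) := by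
    intro j
    by_cases hj : j + 1 < l0.length - 1
    · have h := pg_genFD hCV C [] [x, y] R0 ρ q δ r' SA SB gA gB hVT (j + 1)
        (by rw [hlenT]; omega)
      rw [if_neg (by simp), if_neg (by simp)] at h
      rw [h]
      show _ = RatFunc.C (if j + 1 < l0.length - 1 then vR C SA SB q (gB j) else 0)
      rw [if_pos hj]
      rfl
    · rw [pg_out C _ _ _ _ (by rw [hlenT]; omega)]
      show _ = RatFunc.C (if j + 1 < l0.length - 1 then vR C SA SB q (gB j) else 0)
      rw [if_neg hj, map_zero]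
  have hpgord : ∀ h, OrdGe (pg C ([] ++ [x, y] ++ R0 ++ [ρ]) (δ + r') Φ h) 0 := by
    intro h
    cases h with
    | zero =>
      rw [hpg0]
      have := ord_s hO (K := (C.app N').flat.F) 1
      rw [zpow_one] at this
      exact ord_mono hO (by omega) this
    | succ j => rw [hpgs]; exact ord_C hO _
  have hΦOk : Φ.Ok := hCOk C _ N' φ hVT hfac (hCF.2 _ _ N' hgT hfac) hOk
  have hdd0 : ∀ a' b', OrdGe (dd C (l0 ++ [ρ]) ([] ++ [x, y] ++ R0 ++ [ρ]) (δ + r') Φ a' b') 0 :=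
    fun a' b' => tt_ord hO C _ _ Φ hpgord _ _
  have hddab : dd C (l0 ++ [ρ]) ([] ++ [x, y] ++ R0 ++ [ρ]) (δ + r') Φ a b =
      sVar (C.app N').flat.F := by
    have e1 : ([] ++ [x, y] ++ R0 ++ [ρ]).idxOf x = 0 := by
      show (x :: y :: (R0 ++ [ρ])).idxOf x = 0
      exact List.idxOf_cons_self
    have e2 : ([] ++ [x, y] ++ R0 ++ [ρ]).idxOf y = 1 := by
      show (x :: y :: (R0 ++ [ρ])).idxOf y = 1
      rw [List.idxOf_cons_ne _ hxy, List.idxOf_cons_self]
    show tt C _ _ Φ y - tt C _ _ Φ x = _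
    rw [tt, tt, e1, e2, Finset.sum_range_zero, Finset.sum_range_one, sub_zero, hpg0]
  have hw : ∀ a' b', a' < b' → b' < l0.length →
      OrdGe (dd C (l0 ++ [ρ]) ([] ++ [x, y] ++ R0 ++ [ρ]) (δ + r') Φ a' b')
        (if a' = a ∧ b' = b then 1 else 0) := by
    intro a' b' _ _
    by_cases h : a' = a ∧ b' = b
    · rw [if_pos h, h.1, h.2, hddab]
      have := ord_s hO (K := (C.app N').flat.F) 1
      rwa [zpow_one] at this
    · rw [if_neg h]
      exact hdd0 _ _
  have hγ : OrdGe ((∏ j ∈ Finset.range (l0.length - 1),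
      dd C (l0 ++ [ρ]) ([] ++ [x, y] ++ R0 ++ [ρ]) (δ + r') Φ j (j + 1)) /
      ∏ j ∈ Finset.range (l0.length - 1),
        pg C ([] ++ [x, y] ++ R0 ++ [ρ]) (δ + r') Φ j) (-1) := by
    obtain ⟨t, ht⟩ : ∃ t, l0.length - 1 = t + 1 := ⟨l0.length - 2, by omega⟩
    have h1 : (∏ j ∈ Finset.range (l0.length - 1),
        pg C ([] ++ [x, y] ++ R0 ++ [ρ]) (δ + r') Φ j) =
        RatFunc.C (∏ j ∈ Finset.range t, yy j) * sVar (C.app N').flat.F := by
      rw [ht, Finset.prod_range_succ', hpg0, map_prod]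
      congr 1
      exact Finset.prod_congr rfl fun j _ => hpgs j
    have h2 : OrdGe (∏ j ∈ Finset.range (l0.length - 1),
        dd C (l0 ++ [ρ]) ([] ++ [x, y] ++ R0 ++ [ρ]) (δ + r') Φ j (j + 1)) 0 := by
      have := ord_prod hO (Finset.range (l0.length - 1)) (fun j =>
        dd C (l0 ++ [ρ]) ([] ++ [x, y] ++ R0 ++ [ρ]) (δ + r') Φ j (j + 1)) (fun _ => 0)
        (fun j _ => hdd0 j (j + 1))
      rwa [Finset.sum_const_zero] at this
    have h3 := ord_mul hO h2 (ord_mul hO (ord_C hO (∏ j ∈ Finset.range t, yy j)⁻¹)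
      (ord_s hO (K := (C.app N').flat.F) (-1)))
    rw [h1, div_eq_mul_inv, mul_inv, ← map_inv₀]
    rw [zpow_neg_one] at h3
    exact h3
  have hfin := hcore N' φ hfac hOk _ _ hw hγ
  have hdvd := pair_dvd hO (liftF (C.vo N')) yy _ hpg0 hpgs H' hH'0 (by
    intro e he
    refine kap_ne hEv C N' (l0.length - 2) (fun j => rename (Sum.inr : SB.G → N'.G) (gB j)) ?_ H'
      dH hH'h ?_ yy ?_ e he
    · have e3 : ([] ++ [q] ++ R0 ++ [ρ]).length - 2 = l0.length - 2 := by
        simp only [List.length_append, List.length_cons, List.length_nil]; omega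
      rcases vB.2.2.2.2 with ⟨f, hf⟩ | ⟨h1, _, h⟩
      · left
        refine ⟨⟨fun h => Sum.inr (f (Fin.cast e3.symm h)), ?_⟩, ?_⟩
        · intro u w huw
          have := f.injective (Sum.inr_injective huw)
          exact Fin.cast_injective _ this
        · intro h
          have := hf (Fin.cast e3.symm h)
          show rename Sum.inr (gB h.1) = _
          rw [show gB h.1 = gB (Fin.cast e3.symm h).1 from rfl, this, rename_X]
          rfl
      · right
        refine ⟨?_, ?_⟩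
        · omega
        · show rename Sum.inr (gB 0) = 1
          rw [h, map_one]
    · intro j hj
      exact hH2 (j + 1) (by omega)
    · intro j hj
      show (if j + 1 < l0.length - 1 then vR C SA SB q (gB j) else 0) = _
      rw [if_pos (by omega), vR_eq]) _ hfin
  -- conclusion
  rw [hH1]
  have hmap := map_dvd (aeval (fun k : ℕ => (X (l0.idxOf (([] ++ [x, y] ++ R0).getD (k + 1) 0)) -
          X (l0.idxOf (([] ++ [x, y] ++ R0).getD k 0)) : MvPolynomial ℕ (Fr C.R)))) hdvd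
  rw [map_pow, aeval_X] at hmap
  have e4 : ([] ++ [x, y] ++ R0).getD (0 + 1) 0 = y := rfl
  have e5 : ([] ++ [x, y] ++ R0).getD 0 0 = x := rfl
  rw [e4, e5, hix, hiy] at hmap
  convert hmap using 3
  have e6 : ∑ b' ∈ Finset.range l0.length, ∑ a' ∈ Finset.range b',
      (if a' = a ∧ b' = b then (1 : ℤ) else 0) * kk C (l0 ++ [ρ]) (δ + r') n J a' b' =
      kk C (l0 ++ [ρ]) (δ + r') n J a b := by
    rw [Finset.sum_eq_single b, Finset.sum_eq_single a]
    · rw [if_pos ⟨rfl, rfl⟩, one_mul]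
    · intro a' _ ha'
      rw [if_neg (fun h => ha' h.1), zero_mul]
    · intro h
      exact absurd (Finset.mem_range.mpr hab) h
    · intro b' _ hb'
      apply Finset.sum_eq_zero
      intro a' _
      rw [if_neg (fun h => hb' h.2), zero_mul]
    · intro h
      exact absurd (Finset.mem_range.mpr (by omega)) h
  have e7 : ∑ x' ∈ ([] ++ [x, y] ++ R0 ++ [ρ]).toFinset, φ.lam (Sum.inl x') *
      (∑ i ∈ C.blk x', ww (C.app (Net.gen (l0 ++ [ρ]) (δ + r'))).flat n v i) =
      -(δ : ℤ) * (WW C (l0 ++ [ρ]) (δ + r') n v a + WW C (l0 ++ [ρ]) (δ + r') n v b) := by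
    exact sum_ite_pair (List.mem_toFinset.mpr (by simp)) (List.mem_toFinset.mpr (by simp)) hxy _ _
  rw [e6, e7]
  ring

end ABCT.H20
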