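import Pool.Agent.Helper20_ABCT.Core3

/-!
# Values of the gaps for the facet data of a generic vertex in a context (EPAIR, EDEG)
-/

open MvPolynomial

namespace ABCT.H20

open FlatCell

/-- the value of a polynomial in the gaps of `SA` -/
noncomputable def vL (C : Ctx) (SA SB : Net) (q : ℕ) (p : MvPolynomial SA.G ℕ) :
    (C.app (Net.tsum SA SB q)).flat.F := liftF (C.vi (Net.tsum SA SB q)) (gvL SA SB q p)

/-- the value of a polynomial in the gaps of `SB` -/
noncomputable def vR (C : Ctx) (SA SB : Net) (q : ℕ) (p : MvPolynomial SB.G ℕ) :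
    (C.app (Net.tsum SA SB q)).flat.F := liftF (C.vi (Net.tsum SA SB q)) (gvR SA SB q p)

theorem vL_eq (C : Ctx) (SA SB : Net) (q : ℕ) (p : MvPolynomial SA.G ℕ) : vL C SA SB q p =
    eval₂ (Nat.castRingHom (C.app (Net.tsum SA SB q)).flat.F)
      (fun h => xx (Sum.inr (C.gi (Net.tsum SA SB q) h)))
      (rename (Sum.inl : SA.G → (Net.tsum SA SB q).G) p) := by
  rw [vL, gvL, hom_eval₂, eval₂_rename]
  congr 1
  · exact Subsingleton.elim _ _
  · funext h
    exact liftF_x _ _

theorem vR_eq (C : Ctx) (SA SB : Net) (q : ℕ) (p : MvPolynomial SB.G ℕ) : vR C SA SB q p =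
    eval₂ (Nat.castRingHom (C.app (Net.tsum SA SB q)).flat.F)
      (fun h => xx (Sum.inr (C.gi (Net.tsum SA SB q) h)))
      (rename (Sum.inr : SB.G → (Net.tsum SA SB q).G) p) := by
  rw [vR, gvR, hom_eval₂, eval₂_rename]
  congr 1
  · exact Subsingleton.elim _ _
  · funext h
    exact liftF_x _ _

theorem vL_one (C : Ctx) (SA SB : Net) (q : ℕ) : vL C SA SB q 1 = 1 := by
  rw [vL_eq, map_one, eval₂_one]

theorem vR_one (C : Ctx) (SA SB : Net) (q : ℕ) : vR C SA SB q 1 = 1 := by
  rw [vR_eq, map_one, eval₂_one]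

theorem pg_genFD (hCV : CtxVStmt) (C : Ctx) (L A R : List ℕ) (ρ q d r' : ℕ) (SA SB : Net)
    (gA : ℕ → MvPolynomial SA.G ℕ) (gB : ℕ → MvPolynomial SB.G ℕ)
    (hV : (C.app (Net.gen (L ++ A ++ R ++ [ρ]) (d + r'))).Valid) (h : ℕ)
    (hh : h < (L ++ A ++ R ++ [ρ]).length - 2) :
    pg C (L ++ A ++ R ++ [ρ]) (d + r') (C.fd (genFD L A R ρ q d r' SA SB gA gB)) h =
      if h < L.length then RatFunc.C (vR C SA SB q (gB h))
      else if h + 1 < L.length + A.length then
        sVar (C.app (Net.tsum SA SB q)).flat.F * RatFunc.C (vL C SA SB q (gA (h - L.length)))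
      else RatFunc.C (vR C SA SB q (gB (h + 1 - A.length))) := by
  rw [pg_eq C _ _ _ h hh]
  obtain ⟨e1, e2⟩ := (hCV C (Net.gen (L ++ A ++ R ++ [ρ]) (d + r')) (Net.tsum SA SB q)
    (genFD L A R ρ q d r' SA SB gA gB) hV).2.2.1
    (⟨h, hh⟩ : Fin ((L ++ A ++ R ++ [ρ]).length - 2))
  rw [FacetData.psi, e1, e2]
  by_cases h1 : h < L.length
  · have f1 : (genFD L A R ρ q d r' SA SB gA gB).lam
        (Sum.inr (⟨h, hh⟩ : Fin ((L ++ A ++ R ++ [ρ]).length - 2))) = 0 := by
      show (if L.length ≤ h ∧ h + 1 < L.length + A.length then (1 : ℤ) else 0) = 0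
      rw [if_neg (by omega)]
    have f2 : (genFD L A R ρ q d r' SA SB gA gB).w
        (Sum.inr (⟨h, hh⟩ : Fin ((L ++ A ++ R ++ [ρ]).length - 2))) = gvR SA SB q (gB h) := by
      show (if h < L.length then gvR SA SB q (gB h)
        else if h + 1 < L.length + A.length then gvL SA SB q (gA (h - L.length))
        else gvR SA SB q (gB (h + 1 - A.length))) = _
      rw [if_pos h1]
    rw [f1, f2, zpow_zero, one_mul, if_pos h1]
    rfl
  · rw [if_neg h1]
    by_cases h2 : h + 1 < L.length + A.length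
    · have f1 : (genFD L A R ρ q d r' SA SB gA gB).lam
          (Sum.inr (⟨h, hh⟩ : Fin ((L ++ A ++ R ++ [ρ]).length - 2))) = 1 := by
        show (if L.length ≤ h ∧ h + 1 < L.length + A.length then (1 : ℤ) else 0) = 1
        rw [if_pos (by omega)]
      have f2 : (genFD L A R ρ q d r' SA SB gA gB).w
          (Sum.inr (⟨h, hh⟩ : Fin ((L ++ A ++ R ++ [ρ]).length - 2))) =
            gvL SA SB q (gA (h - L.length)) := by
        show (if h < L.length then gvR SA SB q (gB h)
          else if h + 1 < L.length + A.length then gvL SA SB q (gA (h - L.length))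
          else gvR SA SB q (gB (h + 1 - A.length))) = _
        rw [if_neg h1, if_pos h2]
      rw [f1, f2, zpow_one, if_pos h2]
      rfl
    · have f1 : (genFD L A R ρ q d r' SA SB gA gB).lam
          (Sum.inr (⟨h, hh⟩ : Fin ((L ++ A ++ R ++ [ρ]).length - 2))) = 0 := by
        show (if L.length ≤ h ∧ h + 1 < L.length + A.length then (1 : ℤ) else 0) = 0
        rw [if_neg (by omega)]
      have f2 : (genFD L A R ρ q d r' SA SB gA gB).w
          (Sum.inr (⟨h, hh⟩ : Fin ((L ++ A ++ R ++ [ρ]).length - 2))) =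
            gvR SA SB q (gB (h + 1 - A.length)) := by
        show (if h < L.length then gvR SA SB q (gB h)
          else if h + 1 < L.length + A.length then gvL SA SB q (gA (h - L.length))
          else gvR SA SB q (gB (h + 1 - A.length))) = _
        rw [if_neg h1, if_neg h2]
      rw [f1, f2, zpow_zero, one_mul, if_neg h2]
      rfl

theorem lam_genFD (L A R : List ℕ) (ρ q d r' : ℕ) (SA SB : Net)
    (gA : ℕ → MvPolynomial SA.G ℕ) (gB : ℕ → MvPolynomial SB.G ℕ) (i : ℕ) :
    (genFD L A R ρ q d r' SA SB gA gB).lam (Sum.inl i) = if i ∈ A then -(d : ℤ) else 0 := rfl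

theorem pg_out (C : Ctx) (l' : List ℕ) (r : ℕ) {T' : FlatCell}
    (Φ : FacetData (C.app (Net.gen l' r)).flat T') (h : ℕ) (hh : ¬ h < l'.length - 2) :
    pg C l' r Φ h = 0 := by
  rw [pg, dif_neg hh]

/-- orders of differences of positions -/
theorem tt_ord (hO : OrdStmt) (C : Ctx) (l' : List ℕ) (r : ℕ) {T' : FlatCell}
    (Φ : FacetData (C.app (Net.gen l' r)).flat T') (hpg : ∀ h, OrdGe (pg C l' r Φ h) 0)
    (x y : ℕ) : OrdGe (tt C l' r Φ y - tt C l' r Φ x) 0 := by
  have key : ∀ x y, l'.idxOf x ≤ l'.idxOf y → OrdGe (tt C l' r Φ y - tt C l' r Φ x) 0 := by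
    intro x y h
    rw [tt_sub C l' r Φ h]
    exact ord_sum hO _ _ _ fun k _ => hpg k
  rcases le_total (l'.idxOf x) (l'.idxOf y) with h | h
  · exact key x y h
  · have h1 := ord_mul hO (ord_C hO (-1 : T'.F)) (key y x h)
    rwa [map_neg, map_one, neg_one_mul, neg_sub, zero_add] at h1

end ABCT.H20
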